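import Pool.Agent.Helper64.BI.Proper

/-!
BI-10. The infinite braid group is the union of a chain of linear groups with polynomial transition
maps for which a non-archimedean absolute value suffices.
-/

set_option autoImplicit false

namespace Pool.Agent.Helper64.BI

open Pool.Agent.Helper58.GI

theorem exists_mem_H (g : BInf) : ∃ n, g ∈ H n := by
  have hg : g ∈ Subgroup.closure (Set.range (PresentedGroup.of (rels := rels))) := by
    rw [PresentedGroup.closure_range_of]
    exact Subgroup.mem_top g
  induction hg using Subgroup.closure_induction with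
  | mem x hx =>
    obtain ⟨k, rfl⟩ := hx
    exact ⟨k + 1, σ_mem_H (Nat.lt_succ_self k)⟩
  | one => exact ⟨0, Subgroup.one_mem _⟩
  | mul x y _ _ hx hy =>
    obtain ⟨n, hn⟩ := hx
    obtain ⟨m, hm⟩ := hy
    exact ⟨max n m, Subgroup.mul_mem _ (H_mono (le_max_left n m) hn)
      (H_mono (le_max_right n m) hm)⟩
  | inv x _ hx =>
    obtain ⟨n, hn⟩ := hx
    exact ⟨n, Subgroup.inv_mem _ hn⟩

theorem exists_algUnion : ∃ (K : Type) (_ : Field K), AlgUnion K BInf := by
  obtain ⟨K, _, _, v, t, hv, ht0, ht1, hc⟩ := exists_place
  have ht : t ≠ 0 := by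
    rintro rfl
    simp at ht0
  choose r hr using fun n => exists_rep (K := K) t ht n
  refine ⟨K, inferInstance, ℕ, H, fun n => (n + 2) * (n + 2), r, exists_mem_H,
    fun n => nonarchProper_rep ht hv hc ht1 (hr n), fun i j => ⟨max i j, ?_, ?_⟩⟩
  · exact polyLe_rep t ht (le_max_left i j) (hr i) (hr _)
  · exact polyLe_rep t ht (le_max_right i j) (hr j) (hr _)

/-- every finitely generated subgroup of the infinite braid group is thin -/
theorem polyOver_braid (T : Finset BInf) : PolyOver.{0} T := by
  obtain ⟨K, _, hK⟩ := exists_algUnion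
  exact polyOver_algUnion hK T

end Pool.Agent.Helper64.BI
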