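import Pool.Agent.Helper64.BI.Star

/-!
BI-7. Garside decomposition `h = Δ ^ a * y` and finiteness of the positive braids of bounded length.

Proofs. `exists_decomp`: the set of the `Δ ^ a * y`, `a : ℤ`, `y ∈ P n`, contains `1` and is closed under right
multiplication by `σ k` and `(σ k)⁻¹`: by `Δ_div` `Δ = z σ_k`, so `(σ k)⁻¹ = Δ⁻¹ z`, and `y Δ⁻¹ = Δ⁻¹ y'` with `y' ∈ P n`
(`Δ_mul_mem`: `Δ y = y' Δ`, hmm: `y Δ⁻¹ = Δ⁻¹ (Δ y Δ⁻¹) = Δ⁻¹ y'`). So it contains `H n`
(`Subgroup.closure_induction_right` or the inverse-closed list form). Among the decompositions of `h` choose `a`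
maximal: `exponent y = exponent h - a * n (n + 1) / 2 ≥ 0` bounds `a` from above (`n ≥ 1`; the exponent sum of a
positive braid is `≥ 0`). If `y = z Δ` then `h = Δ ^ a z Δ = Δ ^ (a + 1) z'` by `mem_mul_Δ`, contradiction.
`finite_P`: the positive braids with exponent sum `≤ C` are products of words of length `≤ C` with letters `< n`.

Statement by helper64, proof by helper83.
-/

set_option autoImplicit false

namespace Pool.Agent.Helper64.BI

private theorem decomp_word (e : BInf →* Multiplicative ℤ)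
    (he : ∀ k, e (σ k) = Multiplicative.ofAdd 1) (w : List ℕ) :
    Multiplicative.toAdd (e (w.map σ).prod) = (w.length : ℤ) := by
  induction w with
  | nil => simp
  | cons k w ih =>
    rw [List.map_cons, List.prod_cons, map_mul, toAdd_mul, ih, he, toAdd_ofAdd, List.length_cons]
    push_cast
    ring

private theorem decomp_word_fin {n : ℕ} (w : List ℕ) (hw : ∀ k ∈ w, k < n) :
    ∃ v : List (Fin n), v.length = w.length ∧ (v.map (fun k : Fin n => σ (k : ℕ))).prod = (w.map σ).prod := by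
  induction w with
  | nil => exact ⟨[], rfl, rfl⟩
  | cons k w ih =>
    obtain ⟨v, hv, hp⟩ := ih (fun l hl => hw l (by simp [hl]))
    exact ⟨⟨k, hw k (by simp)⟩ :: v, by simp [hv], by simp [hp]⟩

theorem exponent_nonneg {n : ℕ} (e : BInf →* Multiplicative ℤ)
    (he : ∀ k, e (σ k) = Multiplicative.ofAdd 1) {y : BInf} (hy : y ∈ P n) :
    0 ≤ Multiplicative.toAdd (e y) := by
  obtain ⟨w, _, rfl⟩ := exists_word hy
  rw [decomp_word e he]
  positivity

private theorem decomp_exists {n : ℕ} {h : BInf} (hh : h ∈ H n) :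
    ∃ (a : ℤ) (y : BInf), y ∈ P n ∧ h = Δ n ^ a * y := by
  induction hh using Subgroup.closure_induction_right with
  | one => exact ⟨0, 1, (P n).one_mem, by simp⟩
  | mul_right x _ g hg ih =>
    obtain ⟨a, y, hy, rfl⟩ := ih
    obtain ⟨k, hk, rfl⟩ := hg
    exact ⟨a, y * σ k, (P n).mul_mem hy (σ_mem_P hk), by rw [mul_assoc]⟩
  | mul_inv_cancel x _ g hg ih =>
    obtain ⟨a, y, hy, rfl⟩ := ih
    obtain ⟨k, hk, rfl⟩ := hg
    obtain ⟨z, hz, hΔ⟩ := Δ_div hk
    obtain ⟨y', hy', hΔy⟩ := Δ_mul_mem hy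
    refine ⟨a - 1, y' * z, (P n).mul_mem hy' hz, ?_⟩
    have e1 : (σ k)⁻¹ = (Δ n)⁻¹ * z := by
      rw [hΔ]
      group
    have e2 : y * (Δ n)⁻¹ = (Δ n)⁻¹ * y' := by
      rw [mul_inv_eq_iff_eq_mul, mul_assoc, eq_inv_mul_iff_mul_eq]
      exact hΔy
    rw [e1, zpow_sub_one]
    calc Δ n ^ a * y * ((Δ n)⁻¹ * z) = Δ n ^ a * (y * (Δ n)⁻¹) * z := by group
      _ = Δ n ^ a * ((Δ n)⁻¹ * y') * z := by rw [e2]
      _ = Δ n ^ a * (Δ n)⁻¹ * (y' * z) := by group

theorem exists_decomp {n : ℕ} (hn : 1 ≤ n) {h : BInf} (hh : h ∈ H n) :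
    ∃ (a : ℤ) (y : BInf), y ∈ P n ∧ h = Δ n ^ a * y ∧ ¬ ∃ z ∈ P n, y = z * Δ n := by
  obtain ⟨e, he, heΔ⟩ := exists_exponent
  have hN : (1 : ℤ) ≤ Multiplicative.toAdd (e (Δ n)) := by
    rw [heΔ n]
    have : 2 ≤ n * (n + 1) := by nlinarith
    have h2 : 1 ≤ n * (n + 1) / 2 := by omega
    exact_mod_cast h2
  obtain ⟨a, ⟨y, hy, hay⟩, hmax⟩ := Int.exists_greatest_of_bdd
    (P := fun a : ℤ => ∃ y : BInf, y ∈ P n ∧ h = Δ n ^ a * y)
    ⟨max 0 (Multiplicative.toAdd (e h)), by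
      rintro a ⟨y, hy, hay⟩
      have h1 : Multiplicative.toAdd (e h)
          = a * Multiplicative.toAdd (e (Δ n)) + Multiplicative.toAdd (e y) := by
        rw [hay, map_mul, map_zpow, toAdd_mul, toAdd_zpow, smul_eq_mul]
      have h2 := exponent_nonneg e he hy
      by_cases ha : a ≤ 0
      · exact ha.trans (le_max_left _ _)
      · push Not at ha
        refine le_trans ?_ (le_max_right _ _)
        nlinarith⟩
    (by
      obtain ⟨a, y, hy, hay⟩ := decomp_exists hh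
      exact ⟨a, y, hy, hay⟩)
  refine ⟨a, y, hy, hay, ?_⟩
  rintro ⟨z, hz, rfl⟩
  obtain ⟨z', hz', hzz⟩ := mem_mul_Δ hz
  have := hmax (a + 1) ⟨z', hz', by rw [hay, hzz, zpow_add_one, mul_assoc]⟩
  omega

theorem finite_P (n : ℕ) (e : BInf →* Multiplicative ℤ)
    (he : ∀ k, e (σ k) = Multiplicative.ofAdd 1) (C : ℤ) :
    {y : BInf | y ∈ P n ∧ Multiplicative.toAdd (e y) ≤ C}.Finite := by
  refine Set.Finite.subset ((List.finite_length_le (Fin n) C.toNat).image
    (fun v : List (Fin n) => (v.map (fun k : Fin n => σ (k : ℕ))).prod)) ?_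
  rintro y ⟨hy, hC⟩
  obtain ⟨w, hw, rfl⟩ := exists_word hy
  obtain ⟨v, hv, hp⟩ := decomp_word_fin w hw
  rw [decomp_word e he] at hC
  refine ⟨v, ?_, hp⟩
  simp only [Set.mem_ofPred_eq, hv]
  omega

end Pool.Agent.Helper64.BI
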