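import Mathlib

/-!
BI. The infinite braid group `B_∞` and the Lawrence-Krammer operators (with `q = 1/2`).

`T t k` acts on functions `f : ℕ → ℕ → R` (only the values `f i j` with `i < j` matter); it is the
transpose of the Lawrence-Krammer matrix of `σ_k` in a rescaled basis.
-/

set_option autoImplicit false

namespace Pool.Agent.Helper64.BI

/-- the braid relations -/
def rels : Set (FreeGroup ℕ) :=
  {r | (∃ i, r = FreeGroup.of i * FreeGroup.of (i + 1) * FreeGroup.of i *
      (FreeGroup.of (i + 1) * FreeGroup.of i * FreeGroup.of (i + 1))⁻¹) ∨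
    ∃ i j, i + 2 ≤ j ∧ r = FreeGroup.of i * FreeGroup.of j *
      (FreeGroup.of j * FreeGroup.of i)⁻¹}

/-- the braid group on infinitely many strands `0, 1, 2, ...` -/
abbrev BInf : Type := PresentedGroup rels

/-- the generators -/
def σ (i : ℕ) : BInf := PresentedGroup.of i

theorem σ_braid (i : ℕ) : σ i * σ (i + 1) * σ i = σ (i + 1) * σ i * σ (i + 1) := by
  have h : (PresentedGroup.mk rels) (FreeGroup.of i * FreeGroup.of (i + 1) * FreeGroup.of i *
      (FreeGroup.of (i + 1) * FreeGroup.of i * FreeGroup.of (i + 1))⁻¹) = 1 :=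
    PresentedGroup.one_of_mem (Or.inl ⟨i, rfl⟩)
  rw [map_mul, map_inv, mul_inv_eq_one] at h
  simp only [map_mul] at h
  exact h

theorem σ_comm {i j : ℕ} (hij : i + 2 ≤ j) : σ i * σ j = σ j * σ i := by
  have h : (PresentedGroup.mk rels) (FreeGroup.of i * FreeGroup.of j *
      (FreeGroup.of j * FreeGroup.of i)⁻¹) = 1 :=
    PresentedGroup.one_of_mem (Or.inr ⟨i, j, hij, rfl⟩)
  rw [map_mul, map_inv, mul_inv_eq_one] at h
  simp only [map_mul] at h
  exact h

/-- the braid group on the strands `0, ..., n` -/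
def H (n : ℕ) : Subgroup BInf := Subgroup.closure {g | ∃ k < n, g = σ k}

/-- the positive braids on the strands `0, ..., n` -/
def P (n : ℕ) : Submonoid BInf := Submonoid.closure {g | ∃ k < n, g = σ k}

theorem σ_mem_P {n k : ℕ} (hk : k < n) : σ k ∈ P n := Submonoid.subset_closure ⟨k, hk, rfl⟩

theorem σ_mem_H {n k : ℕ} (hk : k < n) : σ k ∈ H n := Subgroup.subset_closure ⟨k, hk, rfl⟩

theorem H_mono {n m : ℕ} (h : n ≤ m) : H n ≤ H m := by
  apply Subgroup.closure_mono
  rintro g ⟨k, hk, rfl⟩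
  exact ⟨k, lt_of_lt_of_le hk h, rfl⟩

theorem P_le_H (n : ℕ) : P n ≤ (H n).toSubmonoid := by
  rw [P, Submonoid.closure_le]
  rintro g ⟨k, hk, rfl⟩
  exact σ_mem_H hk

/-- a positive braid is the product of a word -/
theorem exists_word {n : ℕ} {y : BInf} (hy : y ∈ P n) :
    ∃ w : List ℕ, (∀ k ∈ w, k < n) ∧ (w.map σ).prod = y := by
  induction hy using Submonoid.closure_induction with
  | mem x hx =>
    obtain ⟨k, hk, rfl⟩ := hx
    exact ⟨[k], by simpa using hk, by simp⟩
  | one => exact ⟨[], by simp, by simp⟩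
  | mul x y _ _ hx hy =>
    obtain ⟨w, hw, rfl⟩ := hx
    obtain ⟨w', hw', rfl⟩ := hy
    refine ⟨w ++ w', ?_, by simp⟩
    intro k hk
    rcases List.mem_append.1 hk with h | h
    · exact hw k h
    · exact hw' k h

theorem word_mem_P {n : ℕ} {w : List ℕ} (hw : ∀ k ∈ w, k < n) : (w.map σ).prod ∈ P n := by
  induction w with
  | nil => simp
  | cons k w ih =>
    simp only [List.map_cons, List.prod_cons]
    exact (P n).mul_mem (σ_mem_P (hw k (by simp))) (ih fun l hl => hw l (by simp [hl]))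

section Operators

variable {R : Type*} [CommRing R] [Algebra ℚ R]

/-- the operator of `σ_k` -/
def T (t : R) (k : ℕ) (f : ℕ → ℕ → R) (i j : ℕ) : R :=
  if j ≤ i then f i j
  else if i = k ∧ j = k + 1 then t * f k (k + 1)
  else if j = k then (1 / 2 : ℚ) • (f i k + f i (k + 1))
  else if j = k + 1 then f i k - t * f k (k + 1)
  else if i = k then f (k + 1) j - t * f k (k + 1)
  else if i = k + 1 then (1 / 2 : ℚ) • (f k j + f (k + 1) j)
  else if i < k ∧ k + 1 < j then f i j + t * f k (k + 1)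
  else f i j

/-- the operator of the word `w`: `T t k_1 (T t k_2 (... (T t k_r f)))` -/
def Tw (t : R) (w : List ℕ) (f : ℕ → ℕ → R) : ℕ → ℕ → R := w.foldr (fun k g => T t k g) f

/-- the function which is `1` at the pair `p` and `0` elsewhere -/
def δ (p : ℕ × ℕ) (i j : ℕ) : R := if (i, j) = p then 1 else 0

end Operators

/-- the inverse operator -/
def Tinv {K : Type*} [Field K] (t : K) (k : ℕ) (g : ℕ → ℕ → K) (i j : ℕ) : K :=
  if j ≤ i then g i j
  else if i = k ∧ j = k + 1 then t⁻¹ * g k (k + 1)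
  else if j = k then g i (k + 1) + g k (k + 1)
  else if j = k + 1 then 2 * g i k - g i (k + 1) - g k (k + 1)
  else if i = k then 2 * g (k + 1) j - g k j - g k (k + 1)
  else if i = k + 1 then g k j + g k (k + 1)
  else if i < k ∧ k + 1 < j then g i j - g k (k + 1)
  else g i j

/-- the pairs `i < j ≤ n` -/
def allp (n : ℕ) : Finset (ℕ × ℕ) :=
  (Finset.range (n + 1) ×ˢ Finset.range (n + 1)).filter fun p => p.1 < p.2

theorem mem_allp {n : ℕ} {p : ℕ × ℕ} : p ∈ allp n ↔ p.1 < p.2 ∧ p.2 ≤ n := by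
  simp only [allp, Finset.mem_filter, Finset.mem_product, Finset.mem_range]
  omega

/-- the transposition of `k` and `k + 1` acting on pairs -/
def sw (k : ℕ) (p : ℕ × ℕ) : ℕ × ℕ := (Equiv.swap k (k + 1) p.1, Equiv.swap k (k + 1) p.2)

/-- the inversion set of `w s_k` from the inversion set `J` of `w` -/
def up (k : ℕ) (J : Finset (ℕ × ℕ)) : Finset (ℕ × ℕ) := insert (k, k + 1) (J.image (sw k))

/-- inversion sets of permutations of `0, ..., n` -/
structure Inv (n : ℕ) (I : Finset (ℕ × ℕ)) : Prop where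
  lt : ∀ p ∈ I, p.1 < p.2 ∧ p.2 ≤ n
  closed : ∀ a b c, (a, b) ∈ I → (b, c) ∈ I → (a, c) ∈ I
  coclosed : ∀ a b c, a < b → b < c → (a, c) ∈ I → (a, b) ∈ I ∨ (b, c) ∈ I

/-- `y` is the simple braid with inversion set `I` -/
inductive IsR (n : ℕ) : Finset (ℕ × ℕ) → BInf → Prop
  | nil : IsR n ∅ 1
  | snoc {J : Finset (ℕ × ℕ)} {y : BInf} (k : ℕ) (hk : k < n) (hJ : (k, k + 1) ∉ J)
      (h : IsR n J y) : IsR n (up k J) (y * σ k)

/-- `σ_0 σ_1 ⋯ σ_{n-1}` -/
def cw : ℕ → BInf
  | 0 => 1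
  | n + 1 => cw n * σ n

/-- `σ_{n-1} ⋯ σ_1 σ_0` -/
def dw : ℕ → BInf
  | 0 => 1
  | n + 1 => σ n * dw n

/-- the Garside element of the braid group on the strands `0, ..., n` -/
def Δ : ℕ → BInf
  | 0 => 1
  | n + 1 => Δ n * dw (n + 1)

/-- the zero columns at `t = 0` of the operator of `w σ_k`, where `A` are those of `w` -/
def star (n k : ℕ) (A : Finset (ℕ × ℕ)) : Finset (ℕ × ℕ) :=
  (allp n).filter fun p =>
    if p.1 = k ∧ p.2 = k + 1 then True
    else if p.2 = k then (p.1, k) ∈ A ∧ (p.1, k + 1) ∈ A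
    else if p.2 = k + 1 then (p.1, k) ∈ A
    else if p.1 = k then (k + 1, p.2) ∈ A
    else if p.1 = k + 1 then (k, p.2) ∈ A ∧ (k + 1, p.2) ∈ A
    else p ∈ A

/-- the zero columns of the operator of the word `w` at `t = 0` -/
def Ac (n : ℕ) (w : List ℕ) : Finset (ℕ × ℕ) := w.foldl (fun A k => star n k A) ∅

end Pool.Agent.Helper64.BI
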