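import Pool.Agent.Helper64.BI.Defs

/-!
BI-4. The Garside element `Δ n = Δ (n-1) σ_{n-1} ⋯ σ_0`.

Proofs. `dw_σ`: `σ_{n-1} ⋯ σ_0 σ_k = σ_{k-1} σ_{n-1} ⋯ σ_0` for `1 ≤ k < n` (move `σ_k` to the left, one braid
relation; or induction on `n` with `dw (n+1) = σ n * dw n`). `σ_cw`: `σ_{k+1} (σ_0 ⋯ σ_{n-1}) = (σ_0 ⋯ σ_{n-1}) σ_k` for
`k + 1 < n`. `Δ_succ'`: `Δ (n+1) = cw (n+1) * Δ n`: induction: `Δ (n+2) = Δ (n+1) dw (n+2) = cw (n+1) Δ n σ_{n+1} dw (n+1)
= cw (n+1) σ_{n+1} Δ n dw (n+1) = cw (n+2) Δ (n+1)` (`σ_{n+1}` commutes with `Δ n`, a product of `σ_k`, `k < n`).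
`Δ_σ`: induction on `n`; for `k ≥ 1`: `Δ_n σ_k = Δ_{n-1} dw_n σ_k = Δ_{n-1} σ_{k-1} dw_n = σ_{n-1-k} Δ_n`; for `k = 0`, `n ≥ 2`:
`σ_{n-1} Δ_n = σ_{n-1} cw_n Δ_{n-1} = cw_n σ_{n-2} Δ_{n-1} = cw_n Δ_{n-1} σ_0 = Δ_n σ_0`; `n = 1`: `Δ_1 = σ_0`.
-/

set_option autoImplicit false

namespace Pool.Agent.Helper64.BI

theorem P_mono {n m : ℕ} (h : n ≤ m) : P n ≤ P m := by
  apply Submonoid.closure_mono
  rintro g ⟨k, hk, rfl⟩
  exact ⟨k, lt_of_lt_of_le hk h, rfl⟩

theorem cw_mem (n : ℕ) : cw n ∈ P n := by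
  induction n with
  | zero => exact (P 0).one_mem
  | succ n ih => exact (P (n + 1)).mul_mem (P_mono (Nat.le_succ n) ih) (σ_mem_P (Nat.lt_succ_self n))

theorem dw_mem (n : ℕ) : dw n ∈ P n := by
  induction n with
  | zero => exact (P 0).one_mem
  | succ n ih => exact (P (n + 1)).mul_mem (σ_mem_P (Nat.lt_succ_self n)) (P_mono (Nat.le_succ n) ih)

theorem Δ_mem (n : ℕ) : Δ n ∈ P n := by
  induction n with
  | zero => exact (P 0).one_mem
  | succ n ih => exact (P (n + 1)).mul_mem (P_mono (Nat.le_succ n) ih) (dw_mem (n + 1))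

/-- `σ_m` commutes with the positive braids on the strands `0, ..., n` if `n < m` -/
theorem σ_comm_P {n m : ℕ} (h : n + 1 ≤ m) {y : BInf} (hy : y ∈ P n) : σ m * y = y * σ m := by
  induction hy using Submonoid.closure_induction with
  | mem x hx =>
    obtain ⟨k, hk, rfl⟩ := hx
    exact (σ_comm (by omega)).symm
  | one => rw [mul_one, one_mul]
  | mul x y _ _ hx hy => rw [← mul_assoc, hx, mul_assoc, hy, mul_assoc]

theorem dw_σ {n k : ℕ} (h : k + 1 < n) : dw n * σ (k + 1) = σ k * dw n := by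
  induction n with
  | zero => omega
  | succ n ih =>
    rcases Nat.lt_or_ge (k + 1) n with h1 | h1
    · change σ n * dw n * σ (k + 1) = σ k * (σ n * dw n)
      rw [mul_assoc, ih h1, ← mul_assoc, ← σ_comm (by omega : k + 2 ≤ n), mul_assoc]
    · obtain rfl : n = k + 1 := by omega
      change σ (k + 1) * (σ k * dw k) * σ (k + 1) = σ k * (σ (k + 1) * (σ k * dw k))
      rw [mul_assoc, mul_assoc, ← σ_comm_P (le_refl (k + 1)) (dw_mem k), ← mul_assoc, ← mul_assoc,
        ← σ_braid, mul_assoc, mul_assoc]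

theorem σ_cw {n k : ℕ} (h : k + 1 < n) : σ (k + 1) * cw n = cw n * σ k := by
  induction n with
  | zero => omega
  | succ n ih =>
    rcases Nat.lt_or_ge (k + 1) n with h1 | h1
    · change σ (k + 1) * (cw n * σ n) = cw n * σ n * σ k
      rw [← mul_assoc, ih h1, mul_assoc, σ_comm (by omega : k + 2 ≤ n), mul_assoc]
    · obtain rfl : n = k + 1 := by omega
      change σ (k + 1) * (cw k * σ k * σ (k + 1)) = cw k * σ k * σ (k + 1) * σ k
      have h2 := σ_comm_P (le_refl (k + 1)) (cw_mem k)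
      have h3 := σ_braid k
      calc σ (k + 1) * (cw k * σ k * σ (k + 1)) = σ (k + 1) * cw k * (σ k * σ (k + 1)) := by
            simp only [mul_assoc]
        _ = cw k * (σ (k + 1) * σ k * σ (k + 1)) := by rw [h2]; simp only [mul_assoc]
        _ = cw k * (σ k * σ (k + 1) * σ k) := by rw [h3]
        _ = cw k * σ k * σ (k + 1) * σ k := by simp only [mul_assoc]

theorem Δ_succ' (n : ℕ) : Δ (n + 1) = cw (n + 1) * Δ n := by
  induction n with
  | zero => simp [Δ, cw, dw]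
  | succ n ih =>
    have h := σ_comm_P (le_refl (n + 1)) (Δ_mem n)
    calc Δ (n + 1 + 1) = Δ (n + 1) * (σ (n + 1) * dw (n + 1)) := rfl
      _ = cw (n + 1) * (Δ n * σ (n + 1)) * dw (n + 1) := by rw [ih]; simp only [mul_assoc]
      _ = cw (n + 1) * σ (n + 1) * (Δ n * dw (n + 1)) := by rw [← h]; simp only [mul_assoc]
      _ = cw (n + 1 + 1) * Δ (n + 1) := rfl

theorem Δ_σ {n k : ℕ} (hk : k < n) : Δ n * σ k = σ (n - 1 - k) * Δ n := by
  induction n generalizing k with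
  | zero => omega
  | succ n ih =>
    cases k with
    | succ k =>
      have e : n + 1 - 1 - (k + 1) = n - 1 - k := by omega
      rw [e]
      change Δ n * dw (n + 1) * σ (k + 1) = σ (n - 1 - k) * (Δ n * dw (n + 1))
      rw [mul_assoc, dw_σ hk, ← mul_assoc, ih (by omega), mul_assoc]
    | zero =>
      cases n with
      | zero => simp [Δ, dw]
      | succ m =>
        have h1 : Δ (m + 1) * σ 0 = σ m * Δ (m + 1) := by
          have := ih (k := 0) (by omega)
          simpa using this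
        have e : m + 1 + 1 - 1 - 0 = m + 1 := by omega
        rw [e, Δ_succ' (m + 1), mul_assoc, h1, ← mul_assoc, ← mul_assoc, σ_cw (by omega)]

/-- `Δ P ⊆ P Δ` -/
theorem Δ_mul_mem {n : ℕ} {y : BInf} (hy : y ∈ P n) : ∃ z ∈ P n, Δ n * y = z * Δ n := by
  induction hy using Submonoid.closure_induction with
  | mem x hx =>
    obtain ⟨k, hk, rfl⟩ := hx
    exact ⟨σ (n - 1 - k), σ_mem_P (by omega), Δ_σ hk⟩
  | one => exact ⟨1, (P n).one_mem, by rw [mul_one, one_mul]⟩
  | mul x y _ _ hx hy =>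
    obtain ⟨z, hz, e⟩ := hx
    obtain ⟨z', hz', e'⟩ := hy
    exact ⟨z * z', (P n).mul_mem hz hz', by rw [← mul_assoc, e, mul_assoc, e', mul_assoc]⟩

/-- `P Δ ⊆ Δ P` -/
theorem mem_mul_Δ {n : ℕ} {y : BInf} (hy : y ∈ P n) : ∃ z ∈ P n, y * Δ n = Δ n * z := by
  induction hy using Submonoid.closure_induction with
  | mem x hx =>
    obtain ⟨k, hk, rfl⟩ := hx
    refine ⟨σ (n - 1 - k), σ_mem_P (by omega), ?_⟩
    have h := Δ_σ (n := n) (k := n - 1 - k) (by omega)
    have e : n - 1 - (n - 1 - k) = k := by omega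
    rw [e] at h
    exact h.symm
  | one => exact ⟨1, (P n).one_mem, by rw [mul_one, one_mul]⟩
  | mul x y _ _ hx hy =>
    obtain ⟨z, hz, e⟩ := hx
    obtain ⟨z', hz', e'⟩ := hy
    exact ⟨z * z', (P n).mul_mem hz hz', by rw [mul_assoc, e', ← mul_assoc, e, mul_assoc]⟩

/-- the exponent sum -/
theorem exists_exponent : ∃ e : BInf →* Multiplicative ℤ,
    (∀ k, e (σ k) = Multiplicative.ofAdd 1) ∧
    ∀ n, Multiplicative.toAdd (e (Δ n)) = (n * (n + 1) / 2 : ℕ) := by
  have hrel : ∀ r ∈ rels, FreeGroup.lift (fun _ : ℕ => Multiplicative.ofAdd (1 : ℤ)) r = 1 := by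
    rintro r (⟨i, rfl⟩ | ⟨i, j, -, rfl⟩)
    · simp
    · simp
  have hσ : ∀ k, PresentedGroup.toGroup hrel (σ k) = Multiplicative.ofAdd 1 := fun k =>
    PresentedGroup.toGroup.of hrel
  have hdw : ∀ n, Multiplicative.toAdd (PresentedGroup.toGroup hrel (dw n)) = n := by
    intro n
    induction n with
    | zero => simp [dw]
    | succ n ih =>
      change Multiplicative.toAdd (PresentedGroup.toGroup hrel (σ n * dw n)) = _
      rw [map_mul, hσ, toAdd_mul, ih, toAdd_ofAdd]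
      push_cast
      ring
  refine ⟨PresentedGroup.toGroup hrel, hσ, fun n => ?_⟩
  induction n with
  | zero => simp [Δ]
  | succ n ih =>
    change Multiplicative.toAdd (PresentedGroup.toGroup hrel (Δ n * dw (n + 1))) = _
    rw [map_mul, toAdd_mul, ih, hdw]
    have e : (n + 1) * (n + 1 + 1) / 2 = n * (n + 1) / 2 + (n + 1) := by
      have : (n + 1) * (n + 1 + 1) = n * (n + 1) + 2 * (n + 1) := by ring
      rw [this, Nat.add_mul_div_left _ _ (by norm_num)]
    rw [e]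
    push_cast
    ring

end Pool.Agent.Helper64.BI
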