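import Pool.Agent.Helper64.BI.Rep
import Pool.Agent.Helper58.GI.Tower

/-!
BI-2. Locality: the braids on the strands `0, ..., n` act on the columns `j > n` in the same way, and fix
the pairs with `i > n`. So the entries of the finite matrices `r m` on `H n`, `n ≤ m`, are entries of `r n` or
`0` or `1`.
-/

set_option autoImplicit false

namespace Pool.Agent.Helper64.BI

open Pool.Agent.Helper58.GI

variable {K : Type*} [Field K] [CharZero K] (t : K) (ht : t ≠ 0)

/-- an operator which only depends on the values at pairs `≤ n`, and on the column `j` at `(·, j)`, `j > n` -/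
private def IsLoc (n : ℕ) (A : (ℕ → ℕ → K) → ℕ → ℕ → K) : Prop :=
  ∀ j j' : ℕ, n < j → n < j' → ∀ f f' : ℕ → ℕ → K, (∀ a b, a < b → b ≤ n → f a b = f' a b) →
    (∀ a, a ≤ n → f a j = f' a j') →
    (∀ a b, a < b → b ≤ n → A f a b = A f' a b) ∧ ∀ a, a ≤ n → A f a j = A f' a j'

/-- an operator which does nothing at the pairs `(i, j)` with `j ≤ i` or `n < i` -/
private def IsFix (n : ℕ) (A : (ℕ → ℕ → K) → ℕ → ℕ → K) : Prop :=
  ∀ (f : ℕ → ℕ → K) (i j : ℕ), (j ≤ i ∨ n < i) → A f i j = f i j

private theorem isLoc_T {n k : ℕ} (hk : k < n) : IsLoc n (T t k) := by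
  intro j j' hj hj' f f' h1 h2
  have e0 := h1 k (k + 1) (by omega) (by omega)
  constructor
  · intro a b hab hb
    have n1 : ¬ b ≤ a := by omega
    unfold T
    simp only [if_neg n1]
    split_ifs with c1 c2 c3 c4 c5 c6
    · rw [e0]
    · rw [h1 a k (by omega) (by omega), h1 a (k + 1) (by omega) (by omega)]
    · rw [h1 a k (by omega) (by omega), e0]
    · rw [h1 (k + 1) b (by omega) (by omega), e0]
    · rw [h1 k b (by omega) (by omega), h1 (k + 1) b (by omega) (by omega)]
    · rw [h1 a b (by omega) (by omega), e0]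
    · rw [h1 a b (by omega) (by omega)]
  · intro a ha
    have m1 : ¬ j ≤ a := by omega
    have m2 : ¬ (a = k ∧ j = k + 1) := by omega
    have m3 : ¬ j = k := by omega
    have m4 : ¬ j = k + 1 := by omega
    have m1' : ¬ j' ≤ a := by omega
    have m2' : ¬ (a = k ∧ j' = k + 1) := by omega
    have m3' : ¬ j' = k := by omega
    have m4' : ¬ j' = k + 1 := by omega
    unfold T
    rw [if_neg m1, if_neg m2, if_neg m3, if_neg m4, if_neg m1', if_neg m2', if_neg m3', if_neg m4']
    by_cases c4 : a = k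
    · rw [if_pos c4, if_pos c4, h2 (k + 1) (by omega), e0]
    · rw [if_neg c4, if_neg c4]
      by_cases c5 : a = k + 1
      · rw [if_pos c5, if_pos c5, h2 k (by omega), h2 (k + 1) (by omega)]
      · rw [if_neg c5, if_neg c5]
        by_cases c6 : a < k
        · have p1 : a < k ∧ k + 1 < j := by omega
          have p2 : a < k ∧ k + 1 < j' := by omega
          rw [if_pos p1, if_pos p2, h2 a ha, e0]
        · have p1 : ¬ (a < k ∧ k + 1 < j) := by omega
          have p2 : ¬ (a < k ∧ k + 1 < j') := by omega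
          rw [if_neg p1, if_neg p2, h2 a ha]

omit [CharZero K] in
private theorem isLoc_Tinv {n k : ℕ} (hk : k < n) : IsLoc n (Tinv t k) := by
  intro j j' hj hj' f f' h1 h2
  have e0 := h1 k (k + 1) (by omega) (by omega)
  constructor
  · intro a b hab hb
    have n1 : ¬ b ≤ a := by omega
    unfold Tinv
    simp only [if_neg n1]
    split_ifs with c1 c2 c3 c4 c5 c6
    · rw [e0]
    · rw [h1 a (k + 1) (by omega) (by omega), e0]
    · rw [h1 a k (by omega) (by omega), h1 a (k + 1) (by omega) (by omega), e0]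
    · rw [h1 (k + 1) b (by omega) (by omega), h1 k b (by omega) (by omega), e0]
    · rw [h1 k b (by omega) (by omega), e0]
    · rw [h1 a b (by omega) (by omega), e0]
    · rw [h1 a b (by omega) (by omega)]
  · intro a ha
    have m1 : ¬ j ≤ a := by omega
    have m2 : ¬ (a = k ∧ j = k + 1) := by omega
    have m3 : ¬ j = k := by omega
    have m4 : ¬ j = k + 1 := by omega
    have m1' : ¬ j' ≤ a := by omega
    have m2' : ¬ (a = k ∧ j' = k + 1) := by omega
    have m3' : ¬ j' = k := by omega
    have m4' : ¬ j' = k + 1 := by omega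
    unfold Tinv
    rw [if_neg m1, if_neg m2, if_neg m3, if_neg m4, if_neg m1', if_neg m2', if_neg m3', if_neg m4']
    by_cases c4 : a = k
    · rw [if_pos c4, if_pos c4, h2 (k + 1) (by omega), h2 k (by omega), e0]
    · rw [if_neg c4, if_neg c4]
      by_cases c5 : a = k + 1
      · rw [if_pos c5, if_pos c5, h2 k (by omega), e0]
      · rw [if_neg c5, if_neg c5]
        by_cases c6 : a < k
        · have p1 : a < k ∧ k + 1 < j := by omega
          have p2 : a < k ∧ k + 1 < j' := by omega
          rw [if_pos p1, if_pos p2, h2 a ha, e0]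
        · have p1 : ¬ (a < k ∧ k + 1 < j) := by omega
          have p2 : ¬ (a < k ∧ k + 1 < j') := by omega
          rw [if_neg p1, if_neg p2, h2 a ha]

private theorem isFix_T {n k : ℕ} (hk : k < n) : IsFix n (T t k) := by
  intro f i j hij
  unfold T
  split_ifs with c0 c1 c2 c3 c4 c5 c6 <;> first | rfl | omega

omit [CharZero K] in
private theorem isFix_Tinv {n k : ℕ} (hk : k < n) : IsFix n (Tinv t k) := by
  intro f i j hij
  unfold Tinv
  split_ifs with c0 c1 c2 c3 c4 c5 c6 <;> first | rfl | omega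

private theorem isLoc_isFix {n : ℕ} {h : BInf} (hh : h ∈ H n) :
    (IsLoc n (fun f => rho t ht h f) ∧ IsFix n (fun f => rho t ht h f)) ∧
      (IsLoc n (fun f => rho t ht h⁻¹ f) ∧ IsFix n (fun f => rho t ht h⁻¹ f)) := by
  have hmul : ∀ g g' : BInf,
      IsLoc n (fun f => rho t ht g f) ∧ IsFix n (fun f => rho t ht g f) →
      IsLoc n (fun f => rho t ht g' f) ∧ IsFix n (fun f => rho t ht g' f) →
      IsLoc n (fun f => rho t ht (g * g') f) ∧ IsFix n (fun f => rho t ht (g * g') f) := by
    rintro g g' ⟨hl, hf⟩ ⟨hl', hf'⟩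
    constructor
    · intro j j' hj hj' f f' h1 h2
      obtain ⟨h1', h2'⟩ := hl' j j' hj hj' f f' h1 h2
      have := hl j j' hj hj' _ _ h1' h2'
      simpa only [rho_mul] using this
    · intro f i j hij
      simp only [rho_mul]
      exact (hf _ i j hij).trans (hf' f i j hij)
  induction hh using Subgroup.closure_induction with
  | mem x hx =>
    obtain ⟨k, hk, rfl⟩ := hx
    have e1 : (fun f => rho t ht (σ k) f) = T t k := by
      funext f
      exact rho_σ t ht k f
    have e2 : (fun f => rho t ht (σ k)⁻¹ f) = Tinv t k := by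
      funext f
      exact rho_σ_inv t ht k f
    rw [e1, e2]
    exact ⟨⟨isLoc_T t hk, isFix_T t hk⟩, isLoc_Tinv t hk, isFix_Tinv t hk⟩
  | one =>
    have e : IsLoc n (fun f => rho t ht 1 f) ∧ IsFix n (fun f => rho t ht 1 f) := by
      constructor
      · intro j j' hj hj' f f' h1 h2
        simp only [map_one]
        exact ⟨h1, h2⟩
      · intro f i j _
        simp only [map_one]
        rfl
    exact ⟨e, by simpa using e⟩
  | mul x y _ _ hx hy =>
    refine ⟨hmul x y hx.1 hy.1, ?_⟩
    rw [mul_inv_rev]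
    exact hmul _ _ hy.2 hx.2
  | inv x _ hx =>
    refine ⟨hx.2, ?_⟩
    rw [inv_inv]
    exact hx.1

theorem rho_local {n : ℕ} {h : BInf} (hh : h ∈ H n) {j j' : ℕ} (hj : n < j) (hj' : n < j')
    {f f' : ℕ → ℕ → K} (h1 : ∀ a b, a < b → b ≤ n → f a b = f' a b)
    (h2 : ∀ a, a ≤ n → f a j = f' a j') :
    (∀ a b, a < b → b ≤ n → rho t ht h f a b = rho t ht h f' a b) ∧
      ∀ a, a ≤ n → rho t ht h f a j = rho t ht h f' a j' :=
  (isLoc_isFix t ht hh).1.1 j j' hj hj' f f' h1 h2

theorem rho_fix {n : ℕ} {h : BInf} (hh : h ∈ H n) (f : ℕ → ℕ → K) {i j : ℕ}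
    (hij : j ≤ i ∨ n < i) : rho t ht h f i j = f i j :=
  (isLoc_isFix t ht hh).1.2 f i j hij

theorem rho_expand {n : ℕ} {h : BInf} (hh : h ∈ H n) (f : ℕ → ℕ → K) {i j : ℕ}
    (hi : i < n + 2) (hj : j < n + 2) :
    rho t ht h f i j = ∑ p : Fin (n + 2) × Fin (n + 2),
      f p.1 p.2 * rho t ht h (δ ((p.1 : ℕ), (p.2 : ℕ))) i j := by
  set f' : ℕ → ℕ → K := ∑ p : Fin (n + 2) × Fin (n + 2),
    f p.1 p.2 • (δ ((p.1 : ℕ), (p.2 : ℕ)) : ℕ → ℕ → K) with hf'
  have hval : ∀ a b, a < n + 2 → b < n + 2 → f' a b = f a b := by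
    intro a b ha hb
    rw [hf', Finset.sum_apply, Finset.sum_apply, Finset.sum_eq_single (⟨a, ha⟩, ⟨b, hb⟩)]
    · simp [δ]
    · intro p _ hp
      have : ¬ ((a, b) = ((p.1 : ℕ), (p.2 : ℕ))) := by
        intro he
        apply hp
        rw [Prod.mk.injEq] at he
        ext
        · exact he.1.symm
        · exact he.2.symm
      simp [δ, this]
    · intro hn
      exact absurd (Finset.mem_univ _) hn
  have hlin : rho t ht h f' i j = ∑ p : Fin (n + 2) × Fin (n + 2),
      f p.1 p.2 * rho t ht h (δ ((p.1 : ℕ), (p.2 : ℕ))) i j := by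
    rw [hf', map_sum, Finset.sum_apply, Finset.sum_apply]
    refine Finset.sum_congr rfl fun p _ => ?_
    rw [map_smul]
    rfl
  rw [← hlin]
  by_cases hc : j ≤ i ∨ n < i
  · rw [rho_fix t ht hh f hc, rho_fix t ht hh f' hc, hval i j hi hj]
  · push Not at hc
    have hl := rho_local t ht hh (j := n + 1) (j' := n + 1) (by omega) (by omega)
      (f := f) (f' := f') (fun a b hab hb => (hval a b (by omega) (by omega)).symm)
      (fun a ha => (hval a (n + 1) (by omega) (by omega)).symm)
    by_cases hjn : j ≤ n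
    · exact hl.1 i j hc.1 hjn
    · have : j = n + 1 := by omega
      subst this
      exact hl.2 i hc.2

/-- the matrix of `h` -/
private noncomputable def Mat (n : ℕ) (h : BInf) :
    Matrix (Fin ((n + 2) * (n + 2))) (Fin ((n + 2) * (n + 2))) K :=
  Matrix.of fun a b => rho t ht h
    (δ (((finProdFinEquiv.symm b).1 : ℕ), ((finProdFinEquiv.symm b).2 : ℕ)))
    (finProdFinEquiv.symm a).1 (finProdFinEquiv.symm a).2

theorem exists_rep (n : ℕ) : ∃ r : H n →* GL (Fin ((n + 2) * (n + 2))) K,
    ∀ (h : H n) (p q : Fin (n + 2) × Fin (n + 2)),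
      (r h : Matrix (Fin ((n + 2) * (n + 2))) (Fin ((n + 2) * (n + 2))) K)
        (finProdFinEquiv p) (finProdFinEquiv q) =
        rho t ht h (δ ((q.1 : ℕ), (q.2 : ℕ))) p.1 p.2 := by
  have hone : Mat t ht n 1 = 1 := by
    ext a b
    rw [Mat, Matrix.of_apply, map_one, Matrix.one_apply]
    change (if _ then _ else _) = _
    by_cases hab : a = b
    · subst hab
      simp
    · rw [if_neg, if_neg hab]
      intro he
      apply hab
      rw [Prod.mk.injEq] at he
      apply finProdFinEquiv.symm.injective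
      ext
      · exact he.1
      · exact he.2
  have hmul : ∀ g g' : BInf, g ∈ H n → g' ∈ H n →
      Mat t ht n (g * g') = Mat t ht n g * Mat t ht n g' := by
    intro g g' hg hg'
    ext a b
    rw [Matrix.mul_apply, Mat, Matrix.of_apply, rho_mul,
      rho_expand t ht hg _ (Fin.is_lt _) (Fin.is_lt _)]
    rw [← Equiv.sum_comp finProdFinEquiv]
    refine Finset.sum_congr rfl fun p _ => ?_
    rw [Mat, Matrix.of_apply, Mat, Matrix.of_apply, Equiv.symm_apply_apply, mul_comm]
  let φ : H n →* Matrix (Fin ((n + 2) * (n + 2))) (Fin ((n + 2) * (n + 2))) K :=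
    { toFun := fun h => Mat t ht n (h : BInf)
      map_one' := hone
      map_mul' := fun g g' => hmul g g' g.2 g'.2 }
  refine ⟨φ.toHomUnits, ?_⟩
  intro h p q
  rw [MonoidHom.coe_toHomUnits]
  change Mat t ht n (h : BInf) (finProdFinEquiv p) (finProdFinEquiv q) = _
  rw [Mat, Matrix.of_apply, Equiv.symm_apply_apply, Equiv.symm_apply_apply]

theorem polyLe_rep {n m : ℕ} (hnm : n ≤ m) {r : H n →* GL (Fin ((n + 2) * (n + 2))) K}
    {s : H m →* GL (Fin ((m + 2) * (m + 2))) K}
    (hr : ∀ (h : H n) (p q : Fin (n + 2) × Fin (n + 2)),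
      (r h : Matrix (Fin ((n + 2) * (n + 2))) (Fin ((n + 2) * (n + 2))) K)
        (finProdFinEquiv p) (finProdFinEquiv q) =
        rho t ht h (δ ((q.1 : ℕ), (q.2 : ℕ))) p.1 p.2)
    (hs : ∀ (h : H m) (p q : Fin (m + 2) × Fin (m + 2)),
      (s h : Matrix (Fin ((m + 2) * (m + 2))) (Fin ((m + 2) * (m + 2))) K)
        (finProdFinEquiv p) (finProdFinEquiv q) =
        rho t ht h (δ ((q.1 : ℕ), (q.2 : ℕ))) p.1 p.2) : PolyLe r s := by
  have hent : ∀ i j c d : ℕ, i < n + 2 → j < n + 2 → c < n + 2 → d < n + 2 →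
      ∃ Q : MvPolynomial ((Fin ((n + 2) * (n + 2)) × Fin ((n + 2) * (n + 2))) ⊕
        (Fin ((n + 2) * (n + 2)) × Fin ((n + 2) * (n + 2)))) K,
        ∀ h : H n, rho t ht h (δ (c, d)) i j = MvPolynomial.eval (ent (r h)) Q := by
    intro i j c d hi hj hc hd
    refine ⟨MvPolynomial.X (Sum.inl (finProdFinEquiv (⟨i, hi⟩, ⟨j, hj⟩),
      finProdFinEquiv (⟨c, hc⟩, ⟨d, hd⟩))), fun h => ?_⟩
    rw [MvPolynomial.eval_X]
    exact (hr h (⟨i, hi⟩, ⟨j, hj⟩) (⟨c, hc⟩, ⟨d, hd⟩)).symm
  have hconst : ∀ (v : K) (F : H n → K), (∀ h, F h = v) →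
      ∃ Q : MvPolynomial ((Fin ((n + 2) * (n + 2)) × Fin ((n + 2) * (n + 2))) ⊕
        (Fin ((n + 2) * (n + 2)) × Fin ((n + 2) * (n + 2)))) K,
        ∀ h : H n, F h = MvPolynomial.eval (ent (r h)) Q := by
    intro v F hF
    refine ⟨MvPolynomial.C v, fun h => ?_⟩
    rw [MvPolynomial.eval_C, hF]
  have hpoly : ∀ i j c d : ℕ,
      ∃ Q : MvPolynomial ((Fin ((n + 2) * (n + 2)) × Fin ((n + 2) * (n + 2))) ⊕
        (Fin ((n + 2) * (n + 2)) × Fin ((n + 2) * (n + 2)))) K,
        ∀ h : H n, rho t ht h (δ (c, d)) i j = MvPolynomial.eval (ent (r h)) Q := by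
    intro i j c d
    by_cases hc : j ≤ i ∨ n < i
    · exact hconst (δ (c, d) i j) _ fun h => rho_fix t ht h.2 _ hc
    push Not at hc
    obtain ⟨hij, hin⟩ := hc
    by_cases hjn : j ≤ n
    · by_cases hcd : c < n + 2 ∧ d < n + 2
      · exact hent i j c d (by omega) (by omega) hcd.1 hcd.2
      · refine hconst 0 _ fun h => ?_
        have hl := rho_local t ht h.2 (j := n + 1) (j' := n + 1) (by omega) (by omega)
          (f := δ (c, d)) (f' := 0) (fun a b hab hb => ?_) (fun a ha => ?_)
        · rw [hl.1 i j hij hjn, map_zero]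
          rfl
        · have : ¬ ((a, b) = (c, d)) := by
            rw [Prod.mk.injEq]
            omega
          simp [δ, this]
        · have : ¬ ((a, n + 1) = (c, d)) := by
            rw [Prod.mk.injEq]
            omega
          simp [δ, this]
    · by_cases hcj : d = j ∧ c ≤ n
      · obtain ⟨Q, hQ⟩ := hent i (n + 1) c (n + 1) (by omega) (by omega) (by omega) (by omega)
        refine ⟨Q, fun h => ?_⟩
        rw [← hQ h]
        refine (rho_local t ht h.2 (j := j) (j' := n + 1) (by omega) (by omega)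
          (f := δ (c, d)) (f' := δ (c, n + 1)) (fun a b hab hb => ?_) (fun a ha => ?_)).2 i hin
        · have h1 : ¬ ((a, b) = (c, d)) := by
            rw [Prod.mk.injEq]
            omega
          have h2 : ¬ ((a, b) = (c, n + 1)) := by
            rw [Prod.mk.injEq]
            omega
          simp only [δ, if_neg h1, if_neg h2]
        · by_cases hac : a = c
          · have h1 : (a, j) = (c, d) := by rw [hac, hcj.1]
            have h2 : (a, n + 1) = (c, n + 1) := by rw [hac]
            simp only [δ, if_pos h1, if_pos h2]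
          · have h1 : ¬ ((a, j) = (c, d)) := by
              rw [Prod.mk.injEq]
              tauto
            have h2 : ¬ ((a, n + 1) = (c, n + 1)) := by
              rw [Prod.mk.injEq]
              tauto
            simp only [δ, if_neg h1, if_neg h2]
      · by_cases hcd : c < d ∧ d ≤ n
        · obtain ⟨Q, hQ⟩ := hent i (n + 1) c d (by omega) (by omega) (by omega) (by omega)
          refine ⟨Q, fun h => ?_⟩
          rw [← hQ h]
          refine (rho_local t ht h.2 (j := j) (j' := n + 1) (by omega) (by omega)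
            (f := δ (c, d)) (f' := δ (c, d)) (fun a b hab hb => rfl) (fun a ha => ?_)).2 i hin
          have h1 : ¬ ((a, j) = (c, d)) := by
            rw [Prod.mk.injEq]
            omega
          have h2 : ¬ ((a, n + 1) = (c, d)) := by
            rw [Prod.mk.injEq]
            omega
          simp only [δ, if_neg h1, if_neg h2]
        · refine hconst 0 _ fun h => ?_
          have hl := rho_local t ht h.2 (j := j) (j' := n + 1) (by omega) (by omega)
            (f := δ (c, d)) (f' := 0) (fun a b hab hb => ?_) (fun a ha => ?_)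
          · rw [hl.2 i hin, map_zero]
            rfl
          · have : ¬ ((a, b) = (c, d)) := by
              rw [Prod.mk.injEq]
              omega
            simp [δ, this]
          · have : ¬ ((a, j) = (c, d)) := by
              rw [Prod.mk.injEq]
              rintro ⟨rfl, rfl⟩
              exact hcj ⟨rfl, ha⟩
            simp [δ, this]
  refine ⟨H_mono hnm, ?_, ?_⟩
  · choose Q hQ using hpoly
    refine ⟨fun a b => Q (finProdFinEquiv.symm a).1 (finProdFinEquiv.symm a).2
      (finProdFinEquiv.symm b).1 (finProdFinEquiv.symm b).2, fun h a b => ?_⟩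
    rw [← hQ]
    have := hs (Subgroup.inclusion (H_mono hnm) h) (finProdFinEquiv.symm a)
      (finProdFinEquiv.symm b)
    rw [Equiv.apply_symm_apply, Equiv.apply_symm_apply] at this
    exact this
  · let u : Fin (n + 2) → Fin (m + 2) := Fin.castLE (by omega)
    refine ⟨fun a b => MvPolynomial.X (Sum.inl
      (finProdFinEquiv (u (finProdFinEquiv.symm a).1, u (finProdFinEquiv.symm a).2),
        finProdFinEquiv (u (finProdFinEquiv.symm b).1, u (finProdFinEquiv.symm b).2))),
      fun h a b => ?_⟩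
    rw [MvPolynomial.eval_X]
    have h1 := hr h (finProdFinEquiv.symm a) (finProdFinEquiv.symm b)
    rw [Equiv.apply_symm_apply, Equiv.apply_symm_apply] at h1
    rw [h1]
    exact (hs (Subgroup.inclusion (H_mono hnm) h)
      (u (finProdFinEquiv.symm a).1, u (finProdFinEquiv.symm a).2)
      (u (finProdFinEquiv.symm b).1, u (finProdFinEquiv.symm b).2)).symm

end Pool.Agent.Helper64.BI
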