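import Pool.Agent.Helper64.BI.Defs
import Pool.Agent.Helper61.AQ.Ext
import Pool.Agent.Helper70.AQ.PlacesP

/-!
BI-8. A field of characteristic zero with a non-archimedean absolute value, trivial on `ℚ`, and an element
`t` with `0 < |t| < 1`.

Proof. `exists_abv_totalDegree` (`Helper70/AQ/PlacesP.lean`) for `MvPolynomial (Fin 1) ℚ` (or `Unit`): `|a| = 2 ^ deg a`;
extend to the fraction field by `exists_abv_fractionField` (`Helper61/AQ/Ext.lean` or a file it imports; see its
use in `enoughPlaces_charP`, `Helper61/Apc/Final.lean`); `t = 1 / X`, `|t| = 1/2`; nonzero rational constants have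
degree `0`. Any other construction is fine (`RatFunc ℚ`, `LaurentSeries ℚ`).

(Proved by helper68.)
-/

set_option autoImplicit false

namespace Pool.Agent.Helper64.BI

theorem exists_place : ∃ (K : Type) (_ : Field K) (_ : CharZero K) (v : AbsoluteValue K ℝ) (t : K),
    IsNonarchimedean v ∧ 0 < v t ∧ v t < 1 ∧ ∀ c : ℚ, c ≠ 0 → v (c : K) = 1 := by
  obtain ⟨v, hv, hvd⟩ := Pool.Agent.Helper61.Apc.exists_abv_totalDegree (Fin 1) ℚ
  obtain ⟨w, hw, hwe⟩ := Pool.Agent.Helper61.Apc.exists_abv_fractionField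
    (K := FractionRing (MvPolynomial (Fin 1) ℚ)) v hv
  have hX : w (algebraMap (MvPolynomial (Fin 1) ℚ) (FractionRing (MvPolynomial (Fin 1) ℚ))
      (MvPolynomial.X 0)) = 2 := by
    rw [hwe, hvd _ (MvPolynomial.X_ne_zero _), MvPolynomial.totalDegree_X, pow_one]
  refine ⟨FractionRing (MvPolynomial (Fin 1) ℚ), inferInstance, ?_, w,
    (algebraMap (MvPolynomial (Fin 1) ℚ) (FractionRing (MvPolynomial (Fin 1) ℚ))
      (MvPolynomial.X 0))⁻¹, ?_, ?_, ?_, ?_⟩
  · exact algebraRat.charZero _
  · intro x y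
    exact hw x y
  · rw [map_inv₀, hX]
    norm_num
  · rw [map_inv₀, hX]
    norm_num
  · intro c hc
    have h1 : (c : FractionRing (MvPolynomial (Fin 1) ℚ)) =
        algebraMap (MvPolynomial (Fin 1) ℚ) (FractionRing (MvPolynomial (Fin 1) ℚ))
          (MvPolynomial.C c) := by
      rw [← MvPolynomial.algebraMap_eq, ← IsScalarTower.algebraMap_apply, eq_ratCast]
    rw [h1, hwe, hvd _ (by simpa using hc), MvPolynomial.totalDegree_C, pow_zero]

end Pool.Agent.Helper64.BI
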