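import Pool.Agent.Helper64.BI.Defs

/-!
BI-6. The operators at `t = 0` over `ℚ` are non-negative, and `Ac n w` is the set of the zero columns
(proofs: helper78).

Proofs. `T 0 k (δ p)`, `p ∈ allp n`, `k < n`, is on the pairs `i < j` the combination: `p = (k, k+1)`: `0`; `p = (i, k)`, `i < k`:
`(1/2) δ (i, k) + δ (i, k+1)`; `p = (i, k+1)`, `i < k`: `(1/2) δ (i, k)`; `p = (k, j)`, `j > k+1`: `(1/2) δ (k+1, j)`;
`p = (k+1, j)`, `j > k+1`: `δ (k, j) + (1/2) δ (k+1, j)`; else `δ p`. (The values at `j ≤ i` play no role: operators only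
see and change pairs `i < j`; a congruence lemma: if `f = g` on the pairs `i < j` then so are `T t k f`, `T t k g`.)
By induction on the word from the right (`Ac n (w ++ [k]) = star n k (Ac n w)`,
`Tw 0 (w ++ [k]) (δ p) = Tw 0 w (T 0 k (δ p))`), linearity and non-negativity.
-/

set_option autoImplicit false

namespace Pool.Agent.Helper64.BI

theorem Ac_append (n : ℕ) (w : List ℕ) (k : ℕ) : Ac n (w ++ [k]) = star n k (Ac n w) := by
  simp [Ac]

private theorem Tw_cons (t : ℚ) (k : ℕ) (w : List ℕ) (f : ℕ → ℕ → ℚ) :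
    Tw t (k :: w) f = T t k (Tw t w f) := rfl

private theorem Tw_snoc (t : ℚ) (w : List ℕ) (k : ℕ) (f : ℕ → ℕ → ℚ) :
    Tw t (w ++ [k]) f = Tw t w (T t k f) := by
  simp [Tw, List.foldr_append]

/-- the operators at `t = 0` -/
private theorem T0_eq (k : ℕ) (f : ℕ → ℕ → ℚ) {i j : ℕ} (hij : i < j) :
    T (0 : ℚ) k f i j = if i = k ∧ j = k + 1 then 0
      else if j = k then (1 / 2) * (f i k + f i (k + 1))
      else if j = k + 1 then f i k
      else if i = k then f (k + 1) j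
      else if i = k + 1 then (1 / 2) * (f k j + f (k + 1) j)
      else f i j := by
  unfold T
  rw [if_neg (not_le.2 hij)]
  split_ifs <;> simp [smul_eq_mul]

private theorem T0_congr (k : ℕ) {f g : ℕ → ℕ → ℚ} (h : ∀ i j, i < j → f i j = g i j) (i j : ℕ)
    (hij : i < j) : T (0 : ℚ) k f i j = T (0 : ℚ) k g i j := by
  rw [T0_eq k f hij, T0_eq k g hij]
  split_ifs with h1 h2 h3 h4 h5
  · rfl
  · rw [h i k (by omega), h i (k + 1) (by omega)]
  · rw [h i k (by omega)]
  · rw [h (k + 1) j (by omega)]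
  · rw [h k j (by omega), h (k + 1) j (by omega)]
  · exact h i j hij

private theorem Tw0_congr (w : List ℕ) {f g : ℕ → ℕ → ℚ} (h : ∀ i j, i < j → f i j = g i j) :
    ∀ i j, i < j → Tw (0 : ℚ) w f i j = Tw (0 : ℚ) w g i j := by
  induction w with
  | nil => exact h
  | cons k w ih =>
    intro i j hij
    rw [Tw_cons, Tw_cons]
    exact T0_congr k ih i j hij

private theorem T0_lin (k : ℕ) (a b : ℚ) (f g : ℕ → ℕ → ℚ) (i j : ℕ) (hij : i < j) :
    T (0 : ℚ) k (fun i j => a * f i j + b * g i j) i j =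
      a * T (0 : ℚ) k f i j + b * T (0 : ℚ) k g i j := by
  rw [T0_eq k _ hij, T0_eq k f hij, T0_eq k g hij]
  split_ifs <;> ring

private theorem Tw0_lin (w : List ℕ) (a b : ℚ) (f g : ℕ → ℕ → ℚ) :
    ∀ i j, i < j → Tw (0 : ℚ) w (fun i j => a * f i j + b * g i j) i j =
      a * Tw (0 : ℚ) w f i j + b * Tw (0 : ℚ) w g i j := by
  induction w with
  | nil =>
    intro i j _
    rfl
  | cons k w ih =>
    intro i j hij
    rw [Tw_cons, Tw_cons, Tw_cons, T0_congr k ih i j hij]
    exact T0_lin k a b _ _ i j hij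

private theorem δ_eq (p : ℕ × ℕ) (i j : ℕ) :
    (δ p i j : ℚ) = if i = p.1 ∧ j = p.2 then 1 else 0 := by
  unfold δ
  refine if_congr ?_ rfl rfl
  constructor
  · intro h
    rw [← h]
    exact ⟨rfl, rfl⟩
  · rintro ⟨h1, h2⟩
    rw [h1, h2]

/-- the columns of the operators at `t = 0` -/
private theorem T0_delta {n k : ℕ} (hk : k < n) {p : ℕ × ℕ} (hp : p ∈ allp n) :
    ∃ (a b : ℚ) (u v : ℕ × ℕ), 0 ≤ a ∧ 0 ≤ b ∧ u ∈ allp n ∧ v ∈ allp n ∧
      (∀ i j, i < j → T (0 : ℚ) k (δ p) i j = a * δ u i j + b * δ v i j) ∧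
      ∀ A : Finset (ℕ × ℕ), p ∈ star n k A ↔ (a ≠ 0 → u ∈ A) ∧ (b ≠ 0 → v ∈ A) := by
  obtain ⟨x, y⟩ := p
  have hp' := mem_allp.1 hp
  have hxy : x < y := hp'.1
  have hyn : y ≤ n := hp'.2
  have hst : ∀ A : Finset (ℕ × ℕ), (x, y) ∈ star n k A ↔
      (if x = k ∧ y = k + 1 then True
      else if y = k then (x, k) ∈ A ∧ (x, k + 1) ∈ A
      else if y = k + 1 then (x, k) ∈ A
      else if x = k then (k + 1, y) ∈ A
      else if x = k + 1 then (k, y) ∈ A ∧ (k + 1, y) ∈ A
      else (x, y) ∈ A) := by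
    intro A
    unfold star
    rw [Finset.mem_filter]
    constructor
    · intro h
      exact h.2
    · intro h
      exact ⟨hp, h⟩
  by_cases h1 : x = k ∧ y = k + 1
  · refine ⟨0, 0, (x, y), (x, y), le_rfl, le_rfl, hp, hp, ?_, ?_⟩
    · intro i j hij
      rw [T0_eq k _ hij]
      simp only [δ_eq]
      split_ifs <;> first | omega | norm_num
    · intro A
      rw [hst A, if_pos h1]
      simp
  by_cases h2 : y = k
  · refine ⟨1 / 2, 1, (x, k), (x, k + 1), by norm_num, by norm_num, mem_allp.2 ⟨?_, ?_⟩,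
      mem_allp.2 ⟨?_, ?_⟩, ?_, ?_⟩
    · show x < k
      omega
    · show k ≤ n
      omega
    · show x < k + 1
      omega
    · show k + 1 ≤ n
      omega
    · intro i j hij
      rw [T0_eq k _ hij]
      simp only [δ_eq]
      split_ifs <;> first | omega | norm_num
    · intro A
      rw [hst A, if_neg h1, if_pos h2]
      norm_num
  by_cases h3 : y = k + 1
  · refine ⟨1 / 2, 0, (x, k), (x, k), by norm_num, by norm_num, mem_allp.2 ⟨?_, ?_⟩,
      mem_allp.2 ⟨?_, ?_⟩, ?_, ?_⟩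
    · show x < k
      omega
    · show k ≤ n
      omega
    · show x < k
      omega
    · show k ≤ n
      omega
    · intro i j hij
      rw [T0_eq k _ hij]
      simp only [δ_eq]
      split_ifs <;> first | omega | norm_num
    · intro A
      rw [hst A, if_neg h1, if_neg h2, if_pos h3]
      norm_num
  by_cases h4 : x = k
  · refine ⟨1 / 2, 0, (k + 1, y), (k + 1, y), by norm_num, by norm_num, mem_allp.2 ⟨?_, ?_⟩,
      mem_allp.2 ⟨?_, ?_⟩, ?_, ?_⟩
    · show k + 1 < y
      omega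
    · show y ≤ n
      omega
    · show k + 1 < y
      omega
    · show y ≤ n
      omega
    · intro i j hij
      rw [T0_eq k _ hij]
      simp only [δ_eq]
      split_ifs <;> first | omega | norm_num
    · intro A
      rw [hst A, if_neg h1, if_neg h2, if_neg h3, if_pos h4]
      norm_num
  by_cases h5 : x = k + 1
  · refine ⟨1, 1 / 2, (k, y), (k + 1, y), by norm_num, by norm_num, mem_allp.2 ⟨?_, ?_⟩,
      mem_allp.2 ⟨?_, ?_⟩, ?_, ?_⟩
    · show k < y
      omega
    · show y ≤ n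
      omega
    · show k + 1 < y
      omega
    · show y ≤ n
      omega
    · intro i j hij
      rw [T0_eq k _ hij]
      simp only [δ_eq]
      split_ifs <;> first | omega | norm_num
    · intro A
      rw [hst A, if_neg h1, if_neg h2, if_neg h3, if_neg h4, if_pos h5]
      norm_num
  · refine ⟨1, 0, (x, y), (x, y), by norm_num, by norm_num, hp, hp, ?_, ?_⟩
    · intro i j hij
      rw [T0_eq k _ hij]
      simp only [δ_eq]
      split_ifs <;> first | omega | norm_num
    · intro A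
      rw [hst A, if_neg h1, if_neg h2, if_neg h3, if_neg h4, if_neg h5]
      norm_num

private theorem δ_nonneg (p : ℕ × ℕ) (i j : ℕ) : (0 : ℚ) ≤ δ p i j := by
  rw [δ_eq]
  split_ifs <;> norm_num

theorem Tw0_nonneg (w : List ℕ) {f : ℕ → ℕ → ℚ} (hf : ∀ i j, i < j → 0 ≤ f i j) (i j : ℕ)
    (hij : i < j) : 0 ≤ Tw (0 : ℚ) w f i j := by
  induction w generalizing i j with
  | nil => exact hf i j hij
  | cons k w ih =>
    rw [Tw_cons, T0_eq k _ hij]
    split_ifs with h1 h2 h3 h4 h5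
    · exact le_rfl
    · have e1 := ih i k (by omega)
      have e2 := ih i (k + 1) (by omega)
      linarith
    · exact ih i k (by omega)
    · exact ih (k + 1) j (by omega)
    · have e1 := ih k j (by omega)
      have e2 := ih (k + 1) j (by omega)
      linarith
    · exact ih i j hij

theorem Tw0_zero {n : ℕ} (w : List ℕ) (hw : ∀ k ∈ w, k < n) {p : ℕ × ℕ} (hp : p ∈ Ac n w)
    (i j : ℕ) (hij : i < j) : Tw (0 : ℚ) w (δ p) i j = 0 := by
  induction w using List.reverseRecOn generalizing p i j with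
  | nil => simp [Ac] at hp
  | append_singleton w k ih =>
    have hk : k < n := hw k (by simp)
    have hw' : ∀ l ∈ w, l < n := fun l hl => hw l (by simp [hl])
    rw [Ac_append] at hp
    have hpn : p ∈ allp n := by
      unfold star at hp
      exact (Finset.mem_filter.1 hp).1
    obtain ⟨a, b, u, v, _, _, _, _, hT, hA⟩ := T0_delta hk hpn
    obtain ⟨hu, hv⟩ := (hA _).1 hp
    rw [Tw_snoc, Tw0_congr w hT i j hij, Tw0_lin w a b (δ u) (δ v) i j hij]
    have e1 : a * Tw (0 : ℚ) w (δ u) i j = 0 := by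
      by_cases ha : a = 0
      · rw [ha, zero_mul]
      · rw [ih hw' (hu ha) i j hij, mul_zero]
    have e2 : b * Tw (0 : ℚ) w (δ v) i j = 0 := by
      by_cases hb : b = 0
      · rw [hb, zero_mul]
      · rw [ih hw' (hv hb) i j hij, mul_zero]
    rw [e1, e2, add_zero]

theorem Tw0_pos {n : ℕ} (w : List ℕ) (hw : ∀ k ∈ w, k < n) {p : ℕ × ℕ} (hp : p ∈ allp n)
    (hpA : p ∉ Ac n w) : ∃ i j, i < j ∧ j ≤ n ∧ 0 < Tw (0 : ℚ) w (δ p) i j := by
  induction w using List.reverseRecOn generalizing p with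
  | nil =>
    refine ⟨p.1, p.2, (mem_allp.1 hp).1, (mem_allp.1 hp).2, ?_⟩
    show (0 : ℚ) < δ p p.1 p.2
    rw [δ_eq, if_pos ⟨rfl, rfl⟩]
    norm_num
  | append_singleton w k ih =>
    have hk : k < n := hw k (by simp)
    have hw' : ∀ l ∈ w, l < n := fun l hl => hw l (by simp [hl])
    rw [Ac_append] at hpA
    obtain ⟨a, b, u, v, ha0, hb0, hu, hv, hT, hA⟩ := T0_delta hk hp
    rw [hA] at hpA
    have key : (a ≠ 0 ∧ u ∉ Ac n w) ∨ (b ≠ 0 ∧ v ∉ Ac n w) := by
      by_contra hcon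
      push Not at hcon
      exact hpA ⟨hcon.1, hcon.2⟩
    rcases key with ⟨ha, huA⟩ | ⟨hb, hvA⟩
    · obtain ⟨i, j, hij, hjn, hpos⟩ := ih hw' hu huA
      refine ⟨i, j, hij, hjn, ?_⟩
      rw [Tw_snoc, Tw0_congr w hT i j hij, Tw0_lin w a b (δ u) (δ v) i j hij]
      have e1 : 0 < a * Tw (0 : ℚ) w (δ u) i j :=
        mul_pos (lt_of_le_of_ne ha0 (Ne.symm ha)) hpos
      have e2 : 0 ≤ b * Tw (0 : ℚ) w (δ v) i j :=
        mul_nonneg hb0 (Tw0_nonneg w (fun i j _ => δ_nonneg v i j) i j hij)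
      linarith
    · obtain ⟨i, j, hij, hjn, hpos⟩ := ih hw' hv hvA
      refine ⟨i, j, hij, hjn, ?_⟩
      rw [Tw_snoc, Tw0_congr w hT i j hij, Tw0_lin w a b (δ u) (δ v) i j hij]
      have e1 : 0 < b * Tw (0 : ℚ) w (δ v) i j :=
        mul_pos (lt_of_le_of_ne hb0 (Ne.symm hb)) hpos
      have e2 : 0 ≤ a * Tw (0 : ℚ) w (δ u) i j :=
        mul_nonneg ha0 (Tw0_nonneg w (fun i j _ => δ_nonneg u i j) i j hij)
      linarith

end Pool.Agent.Helper64.BI
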