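import Pool.Agent.Helper64.BI.Loc
import Pool.Agent.Helper64.BI.Decomp
import Pool.Agent.Helper64.BI.Pos
import Pool.Agent.Helper64.BI.Place

/-!
BI-9. The absolute value at `t = 0` suffices for the Lawrence-Krammer representation: only finitely
many braids on the strands `0, ..., n` have bounded entries.

Proof. Let `h = Δ ^ a * y` with `y` positive, not divisible by `Δ` on the right. Some entry of `y` does not
vanish at `t = 0` (`div_of_Ac`, `Tw0_pos`), so it has absolute value `1`. The entries of `Δ` vanish at `t = 0`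
(`exists_word_Δ`, `Tw0_zero`), so `Δ` multiplies the sizes by at most `|t|`. If `a = - r < 0` then
`y = Δ ^ r * h`, so `1 ≤ |t| ^ r * B`: `a` is bounded from below; the same for `h⁻¹ = Δ ^ a' * y'`. The exponent sums
give `(a + a') n (n + 1) / 2 + exponent y + exponent y' = 0`, so everything is bounded.
-/

set_option autoImplicit false

namespace Pool.Agent.Helper64.BI

open Pool.Agent.Helper58.GI Polynomial

section Abv

variable {K : Type*} [Field K] [CharZero K] {v : AbsoluteValue K ℝ} {t : K}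

theorem abv_aeval_le (hv : IsNonarchimedean v) (hc : ∀ c : ℚ, c ≠ 0 → v (c : K) = 1)
    (ht1 : v t < 1) (F : ℚ[X]) : v (aeval t F) ≤ 1 := by
  have hc' : ∀ c : ℚ, v (c : K) ≤ 1 := by
    intro c
    by_cases h : c = 0
    · subst h; simp
    · rw [hc c h]
  induction F using Polynomial.induction_on with
  | C a =>
    rw [aeval_C]
    exact hc' a
  | add p q hp hq =>
    rw [map_add]
    exact (hv _ _).trans (max_le hp hq)
  | monomial m a _ =>
    rw [map_mul, aeval_C, map_pow, aeval_X, map_mul, map_pow]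
    have h1 : v t ^ (m + 1) ≤ 1 := pow_le_one₀ (v.nonneg _) ht1.le
    have h2 : v (algebraMap ℚ K a) ≤ 1 := hc' a
    calc v (algebraMap ℚ K a) * v t ^ (m + 1) ≤ 1 * 1 :=
          mul_le_mul h2 h1 (pow_nonneg (v.nonneg _) _) zero_le_one
      _ = 1 := one_mul 1

theorem abv_aeval_lt (hv : IsNonarchimedean v) (hc : ∀ c : ℚ, c ≠ 0 → v (c : K) = 1)
    (ht1 : v t < 1) {F : ℚ[X]} (hF : F.eval 0 = 0) : v (aeval t F) ≤ v t := by
  have h1 := Polynomial.divX_mul_X_add F
  have h2 : F.coeff 0 = 0 := by rw [Polynomial.coeff_zero_eq_eval_zero, hF]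
  rw [h2, C_0, add_zero] at h1
  rw [← h1, map_mul, aeval_X, map_mul]
  calc v (aeval t F.divX) * v t ≤ 1 * v t :=
        mul_le_mul_of_nonneg_right (abv_aeval_le hv hc ht1 _) (v.nonneg _)
    _ = v t := one_mul _

theorem abv_aeval_eq (hv : IsNonarchimedean v) (hc : ∀ c : ℚ, c ≠ 0 → v (c : K) = 1)
    (ht1 : v t < 1) {F : ℚ[X]} (hF : F.eval 0 ≠ 0) : v (aeval t F) = 1 := by
  apply le_antisymm (abv_aeval_le hv hc ht1 F)
  have h1 := Polynomial.divX_mul_X_add F
  have h2 : aeval t F = aeval t (F.divX * X) + algebraMap ℚ K (F.coeff 0) := by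
    conv_lhs => rw [← h1]
    rw [map_add, aeval_C]
  have h3 : v (aeval t (F.divX * X)) < 1 := by
    refine lt_of_le_of_lt (abv_aeval_lt hv hc ht1 ?_) ht1
    simp
  have h4 : v (algebraMap ℚ K (F.coeff 0)) = 1 := by
    refine hc _ ?_
    rwa [Polynomial.coeff_zero_eq_eval_zero]
  have h5 : algebraMap ℚ K (F.coeff 0) = aeval t F + -aeval t (F.divX * X) := by
    rw [h2]; ring
  have h6 : v (algebraMap ℚ K (F.coeff 0)) ≤ max (v (aeval t F)) (v (-aeval t (F.divX * X))) := by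
    conv_lhs => rw [h5]
    exact hv _ _
  rw [h4, AbsoluteValue.map_neg] at h6
  rcases le_max_iff.1 h6 with h | h
  · exact h
  · exact absurd h (not_le.2 h3)

theorem abv_sum_le (hv : IsNonarchimedean v) {ι : Type*} (s : Finset ι) (f : ι → K) {M : ℝ}
    (hM : 0 ≤ M) (h : ∀ i ∈ s, v (f i) ≤ M) : v (∑ i ∈ s, f i) ≤ M := by
  classical
  induction s using Finset.induction_on with
  | empty => simpa using hM
  | insert a s ha ih =>
    rw [Finset.sum_insert ha]
    refine (hv _ _).trans (max_le (h a (by simp)) (ih fun i hi => h i (by simp [hi])))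

/-- an entry of the operator of a positive word is a polynomial in `t` -/
theorem Tw_aeval (w : List ℕ) (p : ℕ × ℕ) (i j : ℕ) :
    Tw t w (δ p) i j = aeval t (Tw (X : ℚ[X]) w (δ p) i j) := by
  rw [Tw_map (X : ℚ[X]) (aeval t) w (δ p) i j, aeval_X]
  congr 1
  funext a b
  simp only [δ]
  split_ifs <;> simp

theorem Tw_eval_zero (w : List ℕ) (p : ℕ × ℕ) (i j : ℕ) :
    (Tw (X : ℚ[X]) w (δ p) i j).eval 0 = Tw (0 : ℚ) w (δ p) i j := by
  have h := Tw_map (X : ℚ[X]) (aeval (0 : ℚ)) w (δ p) i j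
  rw [aeval_X] at h
  rw [← Polynomial.coe_aeval_eq_eval, h]
  congr 1
  funext a b
  simp only [δ]
  split_ifs <;> simp

end Abv

section Bound

variable {K : Type*} [Field K] [CharZero K] {v : AbsoluteValue K ℝ} {t : K} (ht : t ≠ 0)

/-- the operator of `h` multiplies the sizes by at most the size of its entries -/
theorem abv_rho_le (hv : IsNonarchimedean v) {n : ℕ} {h : BInf} (hh : h ∈ H n) {c B : ℝ}
    (hc0 : 0 ≤ c) (hB0 : 0 ≤ B)
    (hc : ∀ p ∈ allp n, ∀ i j, i < j → j ≤ n → v (rho t ht h (δ p) i j) ≤ c)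
    {f : ℕ → ℕ → K} (hf : ∀ i j, i < j → j ≤ n → v (f i j) ≤ B) (i j : ℕ) (hij : i < j)
    (hj : j ≤ n) : v (rho t ht h f i j) ≤ c * B := by
  rw [rho_expand t ht hh f (by omega) (by omega)]
  refine abv_sum_le hv _ _ (mul_nonneg hc0 hB0) fun p _ => ?_
  by_cases hp : ((p.1 : ℕ), (p.2 : ℕ)) ∈ allp n
  · have hp' := mem_allp.1 hp
    rw [map_mul, mul_comm c B]
    exact mul_le_mul (hf _ _ hp'.1 hp'.2) (hc _ hp i j hij hj) (v.nonneg _) hB0
  · have h0 : rho t ht h (δ ((p.1 : ℕ), (p.2 : ℕ))) i j = 0 := by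
      have h1 := (rho_local t ht hh (j := n + 2) (j' := n + 2) (by omega) (by omega)
        (f := δ ((p.1 : ℕ), (p.2 : ℕ))) (f' := 0) (fun a b hab hb => ?_) (fun a ha => ?_)).1 i j
        hij hj
      · rw [h1, map_zero]
        rfl
      · simp only [δ]
        rw [if_neg]
        · rfl
        · intro h
          rw [← h] at hp
          exact hp (mem_allp.2 ⟨hab, hb⟩)
      · simp only [δ]
        rw [if_neg]
        · rfl
        · intro h
          have h2 := congrArg Prod.snd h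
          have h3 := p.2.2
          simp only at h2
          omega
    rw [h0, mul_zero, map_zero]
    exact mul_nonneg hc0 hB0

theorem abv_Δ_le (hv : IsNonarchimedean v) (hc : ∀ c : ℚ, c ≠ 0 → v (c : K) = 1)
    (ht1 : v t < 1) (n : ℕ) : ∀ p ∈ allp n, ∀ i j, i < j → j ≤ n →
      v (rho t ht (Δ n) (δ p) i j) ≤ v t := by
  obtain ⟨w, hw, hwΔ, hA⟩ := exists_word_Δ n
  intro p hp i j hij _
  rw [← hwΔ, rho_word, Tw_aeval]
  refine abv_aeval_lt hv hc ht1 ?_
  rw [Tw_eval_zero]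
  exact Tw0_zero w hw (by rw [hA]; exact hp) i j hij

theorem exists_entry (hv : IsNonarchimedean v) (hc : ∀ c : ℚ, c ≠ 0 → v (c : K) = 1)
    (ht1 : v t < 1) {n : ℕ} {y : BInf} (hy : y ∈ P n) (hyΔ : ¬ ∃ z ∈ P n, y = z * Δ n) :
    ∃ p ∈ allp n, ∃ i j, i < j ∧ j ≤ n ∧ v (rho t ht y (δ p) i j) = 1 := by
  obtain ⟨w, hw, rfl⟩ := exists_word hy
  have hA : ¬ allp n ⊆ Ac n w := by
    intro hsub
    apply hyΔ
    have hsub' : Ac n w ⊆ allp n := by
      rcases List.eq_nil_or_concat w with rfl | ⟨w', k, rfl⟩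
      · simp [Ac]
      · rw [List.concat_eq_append, Ac_append]
        exact Finset.filter_subset _ _
    obtain ⟨z, hz, hz'⟩ := div_of_Ac hw (Finset.Subset.antisymm hsub' hsub)
    exact ⟨z, hz, hz'⟩
  obtain ⟨p, hp, hpA⟩ := Finset.not_subset.1 hA
  obtain ⟨i, j, hij, hj, hpos⟩ := Tw0_pos w hw hp hpA
  refine ⟨p, hp, i, j, hij, hj, ?_⟩
  rw [rho_word, Tw_aeval]
  refine abv_aeval_eq hv hc ht1 ?_
  rw [Tw_eval_zero]
  exact hpos.ne'

/-- a lower bound for `a` -/
theorem exists_lower (hv : IsNonarchimedean v) (hc : ∀ c : ℚ, c ≠ 0 → v (c : K) = 1)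
    (ht1 : v t < 1) (n : ℕ) (B : ℝ) :
    ∃ R : ℕ, ∀ (h y : BInf) (a : ℤ), h ∈ H n → y ∈ P n → (¬ ∃ z ∈ P n, y = z * Δ n) →
      h = Δ n ^ a * y →
      (∀ p ∈ allp n, ∀ i j, i < j → j ≤ n → v (rho t ht h (δ p) i j) ≤ B) → -(R : ℤ) ≤ a := by
  have hB' : 0 < max B 1 := lt_of_lt_of_le one_pos (le_max_right _ _)
  obtain ⟨R, hR⟩ := exists_pow_lt_of_lt_one (inv_pos.2 hB') ht1
  refine ⟨R, fun h y a hh hy hyΔ hay hb => ?_⟩
  by_contra hlt
  push Not at hlt
  obtain ⟨r, hr⟩ : ∃ r : ℕ, a = -(r : ℤ) := ⟨a.natAbs, by omega⟩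
  have hRr : R ≤ r := by omega
  have hyh : y = Δ n ^ r * h := by
    rw [hay, hr, zpow_neg, zpow_natCast, mul_inv_cancel_left]
  obtain ⟨p, hp, i, j, hij, hj, hone⟩ := exists_entry ht hv hc ht1 hy hyΔ
  have hpow : ∀ m : ℕ, ∀ i j, i < j → j ≤ n →
      v (rho t ht (Δ n ^ m * h) (δ p) i j) ≤ v t ^ m * max B 1 := by
    intro m
    induction m with
    | zero =>
      intro i j hij hj
      rw [pow_zero, one_mul, pow_zero, one_mul]
      exact (hb p hp i j hij hj).trans (le_max_left _ _)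
    | succ m ih =>
      intro i j hij hj
      rw [pow_succ', mul_assoc, rho_mul, pow_succ', mul_assoc]
      exact abv_rho_le ht hv (P_le_H n (Δ_mem n)) (v.nonneg _)
        (mul_nonneg (pow_nonneg (v.nonneg _) _) hB'.le) (abv_Δ_le ht hv hc ht1 n) ih i j hij hj
  have h1 := hpow r i j hij hj
  rw [← hyh, hone] at h1
  have h2 : v t ^ r ≤ v t ^ R := pow_le_pow_of_le_one (v.nonneg _) ht1.le hRr
  have h3 : v t ^ r * max B 1 < 1 := by
    calc v t ^ r * max B 1 ≤ v t ^ R * max B 1 := mul_le_mul_of_nonneg_right h2 hB'.le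
      _ < (max B 1)⁻¹ * max B 1 := mul_lt_mul_of_pos_right hR hB'
      _ = 1 := inv_mul_cancel₀ hB'.ne'
  linarith

theorem finite_bounded (hv : IsNonarchimedean v) (hc : ∀ c : ℚ, c ≠ 0 → v (c : K) = 1)
    (ht1 : v t < 1) (n : ℕ) (B : ℝ) :
    {h : BInf | h ∈ H n ∧
      (∀ p ∈ allp n, ∀ i j, i < j → j ≤ n → v (rho t ht h (δ p) i j) ≤ B) ∧
      ∀ p ∈ allp n, ∀ i j, i < j → j ≤ n → v (rho t ht h⁻¹ (δ p) i j) ≤ B}.Finite := by
  rcases Nat.eq_zero_or_pos n with rfl | hn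
  · refine (Set.finite_singleton (1 : BInf)).subset ?_
    rintro h ⟨hh, _⟩
    have : H 0 = ⊥ := by
      rw [H]
      have : {g : BInf | ∃ k < 0, g = σ k} = ∅ := by
        ext g; simp
      rw [this, Subgroup.closure_empty]
    rw [this, Subgroup.mem_bot] at hh
    exact hh
  obtain ⟨R, hR⟩ := exists_lower ht hv hc ht1 n B
  obtain ⟨e, he, heΔ⟩ := exists_exponent
  set N : ℤ := ((n * (n + 1) / 2 : ℕ) : ℤ) with hN
  have hN0 : 0 < N := by
    have : 0 < n * (n + 1) / 2 := Nat.div_pos (by nlinarith) (by norm_num)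
    rw [hN]
    exact_mod_cast this
  have hfin := (finite_P n e he (2 * R * N)).image2 (fun (y : BInf) (a : ℤ) => Δ n ^ a * y)
    (Set.finite_Icc (-(R : ℤ)) R)
  refine hfin.subset ?_
  rintro h ⟨hh, hb, hb'⟩
  obtain ⟨a, y, hy, hay, hyΔ⟩ := exists_decomp hn hh
  obtain ⟨a', y', hy', hay', hyΔ'⟩ := exists_decomp hn ((H n).inv_mem hh)
  have h1 := hR h y a hh hy hyΔ hay hb
  have h2 := hR h⁻¹ y' a' ((H n).inv_mem hh) hy' hyΔ' hay' hb'
  have h3 : Multiplicative.toAdd (e h) = a * N + Multiplicative.toAdd (e y) := by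
    rw [hay, map_mul, map_zpow, toAdd_mul, toAdd_zpow, heΔ, smul_eq_mul]
  have h4 : -Multiplicative.toAdd (e h) = a' * N + Multiplicative.toAdd (e y') := by
    rw [← toAdd_inv, ← map_inv, hay', map_mul, map_zpow, toAdd_mul, toAdd_zpow, heΔ, smul_eq_mul]
  have h5 := exponent_nonneg e he hy
  have h6 := exponent_nonneg e he hy'
  have h7 : (a + a') * N ≤ 0 := by nlinarith
  have h8 : a + a' ≤ 0 := by
    by_contra hlt
    push Not at hlt
    have : 0 < (a + a') * N := mul_pos hlt hN0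
    linarith
  refine ⟨y, ⟨hy, ?_⟩, a, ⟨h1, by omega⟩, hay.symm⟩
  have h9 : Multiplicative.toAdd (e y) ≤ -(a + a') * N := by nlinarith
  have h10 : -(a + a') * N ≤ 2 * R * N := by
    apply mul_le_mul_of_nonneg_right _ hN0.le
    omega
  exact h9.trans h10

theorem nonarchProper_rep (hv : IsNonarchimedean v) (hc : ∀ c : ℚ, c ≠ 0 → v (c : K) = 1)
    (ht1 : v t < 1) {n : ℕ} {r : H n →* GL (Fin ((n + 2) * (n + 2))) K}
    (hr : ∀ (h : H n) (p q : Fin (n + 2) × Fin (n + 2)),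
      (r h : Matrix (Fin ((n + 2) * (n + 2))) (Fin ((n + 2) * (n + 2))) K)
        (finProdFinEquiv p) (finProdFinEquiv q) =
        rho t ht h (δ ((q.1 : ℕ), (q.2 : ℕ))) p.1 p.2) : NonarchProper r := by
  intro T _
  refine ⟨1, fun _ => v, fun _ => hv, fun B => ?_⟩
  refine ((finite_bounded ht hv hc ht1 n B).preimage
    (f := fun h : H n => (h : BInf)) Subtype.val_injective.injOn).subset ?_
  rintro h ⟨_, hB⟩
  have key : ∀ (g : H n), (∀ p q, v ((r g : Matrix (Fin ((n + 2) * (n + 2)))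
      (Fin ((n + 2) * (n + 2))) K) p q) ≤ B) → ∀ p ∈ allp n, ∀ i j, i < j → j ≤ n →
      v (rho t ht g (δ p) i j) ≤ B := by
    intro g hg p hp i j hij hj
    have hp' := mem_allp.1 hp
    have h1 := hr g (⟨i, by omega⟩, ⟨j, by omega⟩) (⟨p.1, by omega⟩, ⟨p.2, by omega⟩)
    simp only [Prod.mk.eta] at h1
    rw [← h1]
    exact hg _ _
  refine ⟨h.2, key h fun p q => ?_, ?_⟩
  · exact hB 0 (Sum.inl (p, q))
  · have := key h⁻¹ fun p q => ?_
    · simpa using this
    · rw [map_inv]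
      exact hB 0 (Sum.inr (p, q))

end Bound

end Pool.Agent.Helper64.BI
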