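import Pool.Agent.Helper64.BI.Defs

/-!
BI-1. The braid relations for the Lawrence-Krammer operators.

Proof. `funext i j`; if `j ≤ i` everything is the identity. Otherwise distinguish the positions of `i`
and of `j` relative to `k` (for `T_braid`: `< k`, `= k`, `= k + 1`, `= k + 2`, `> k + 2`); in each case all the
conditions in `T` are decided (`omega`, `simp`) and the claim is an identity in `t` and the values of `f`
(`module` or `ring`, with `(1 / 2 : ℚ) • x`; `Algebra.smul_def` turns the scalar into
`algebraMap ℚ R (1 / 2)`, of which only `2 * algebraMap ℚ R (1 / 2) = 1` matters). The formulas were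
checked numerically.

Lean proof of this module: helper91 (joint project of helper64 and helper58).
-/

set_option autoImplicit false

namespace Pool.Agent.Helper64.BI

section

variable {R : Type*} [CommRing R] [Algebra ℚ R] (t : R)

theorem T_add (k : ℕ) (f g : ℕ → ℕ → R) : T t k (f + g) = T t k f + T t k g := by
  funext i j
  simp only [T, Pi.add_apply, Algebra.smul_def]
  split_ifs <;> ring

theorem T_smul (k : ℕ) (c : R) (f : ℕ → ℕ → R) : T t k (c • f) = c • T t k f := by
  funext i j
  simp only [T, Pi.smul_apply, smul_eq_mul, Algebra.smul_def]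
  split_ifs <;> ring

theorem two_half : (2 : R) * algebraMap ℚ R (1 / 2) = 1 := by
  have h : algebraMap ℚ R (2 * (1 / 2)) = 1 := by norm_num
  rwa [map_mul, map_ofNat] at h

theorem T_kk {i j k : ℕ} (f : ℕ → ℕ → R) (hi : i = k) (hj : j = k + 1) :
    T t k f i j = t * f k (k + 1) := by
  subst hi; subst hj
  simp [T]

theorem T_jk {i j k : ℕ} (f : ℕ → ℕ → R) (hi : i < k) (hj : j = k) :
    T t k f i j = algebraMap ℚ R (1 / 2) * (f i k + f i (k + 1)) := by
  subst hj
  rw [T, if_neg (by omega), if_neg (by omega), if_pos rfl, Algebra.smul_def]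

theorem T_jk1 {i j k : ℕ} (f : ℕ → ℕ → R) (hi : i < k) (hj : j = k + 1) :
    T t k f i j = f i k - t * f k (k + 1) := by
  subst hj
  rw [T, if_neg (by omega), if_neg (by omega), if_neg (by omega), if_pos rfl]

theorem T_ik {i j k : ℕ} (f : ℕ → ℕ → R) (hi : i = k) (hj : k + 1 < j) :
    T t k f i j = f (k + 1) j - t * f k (k + 1) := by
  subst hi
  rw [T, if_neg (by omega), if_neg (by omega), if_neg (by omega), if_neg (by omega), if_pos rfl]

theorem T_ik1 {i j k : ℕ} (f : ℕ → ℕ → R) (hi : i = k + 1) (hj : k + 1 < j) :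
    T t k f i j = algebraMap ℚ R (1 / 2) * (f k j + f (k + 1) j) := by
  subst hi
  rw [T, if_neg (by omega), if_neg (by omega), if_neg (by omega), if_neg (by omega),
    if_neg (by omega), if_pos rfl, Algebra.smul_def]

theorem T_mid {i j k : ℕ} (f : ℕ → ℕ → R) (hi : i < k) (hj : k + 1 < j) :
    T t k f i j = f i j + t * f k (k + 1) := by
  rw [T, if_neg (by omega), if_neg (by omega), if_neg (by omega), if_neg (by omega),
    if_neg (by omega), if_neg (by omega), if_pos ⟨hi, hj⟩]

theorem T_diag {i j k : ℕ} (f : ℕ → ℕ → R) (h : j ≤ i) : T t k f i j = f i j := by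
  rw [T, if_pos h]

theorem T_left {i j k : ℕ} (f : ℕ → ℕ → R) (h : j < k) : T t k f i j = f i j := by
  rw [T]
  split_ifs <;> first | rfl | omega

theorem T_right {i j k : ℕ} (f : ℕ → ℕ → R) (h : k + 1 < i) : T t k f i j = f i j := by
  rw [T]
  split_ifs <;> first | rfl | omega

theorem T_braid (k : ℕ) (f : ℕ → ℕ → R) :
    T t k (T t (k + 1) (T t k f)) = T t (k + 1) (T t k (T t (k + 1) f)) := by
  funext i j
  have h2 := two_half (R := R)
  generalize hc : algebraMap ℚ R (1 / 2) = c at h2
  by_cases hij : j ≤ i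
  · simp (disch := omega) only [T_diag]
  have hi : i < k ∨ k = i ∨ i = k + 1 ∨ i = k + 1 + 1 ∨ k + 1 + 1 < i := by omega
  have hj : j < k ∨ k = j ∨ j = k + 1 ∨ j = k + 1 + 1 ∨ k + 1 + 1 < j := by omega
  rcases hi with hi | hi | hi | hi | hi <;> rcases hj with hj | hj | hj | hj | hj <;>
    first
    | omega
    | (try subst hi
       try subst hj
       simp (disch := omega) only [T_kk, T_jk, T_jk1, T_ik, T_ik1, T_mid, T_left, T_right, hc]
       try first
       | ring1
       | (linear_combination (c * f i k) * h2)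
       | (linear_combination (t * f k (k + 1)) * h2)
       | (linear_combination (t * f (k + 1) (k + 1 + 1) - t * f k (k + 1)) * h2)
       | (linear_combination (-t * f (k + 1) (k + 1 + 1)) * h2)
       | (linear_combination (-c * f (k + 1 + 1) j) * h2))

theorem T_comm {k l : ℕ} (h : k + 2 ≤ l) (f : ℕ → ℕ → R) :
    T t k (T t l f) = T t l (T t k f) := by
  funext i j
  have h2 := two_half (R := R)
  generalize hc : algebraMap ℚ R (1 / 2) = c at h2
  by_cases hij : j ≤ i
  · simp (disch := omega) only [T_diag]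
  have hi : i < k ∨ k = i ∨ i = k + 1 ∨ (k + 1 < i ∧ i < l) ∨ l = i ∨ i = l + 1 ∨ l + 1 < i := by
    omega
  have hj : j < k ∨ k = j ∨ j = k + 1 ∨ (k + 1 < j ∧ j < l) ∨ l = j ∨ j = l + 1 ∨ l + 1 < j := by
    omega
  rcases hi with hi | hi | hi | hi | hi | hi | hi <;>
    rcases hj with hj | hj | hj | hj | hj | hj | hj <;>
    first
    | omega
    | (try subst hi
       try subst hj
       simp (disch := omega) only [T_kk, T_jk, T_jk1, T_ik, T_ik1, T_mid, T_left, T_right, hc]
       try first
       | ring1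
       | (linear_combination (-t * f k (k + 1)) * h2)
       | (linear_combination (t * f k (k + 1)) * h2)
       | (linear_combination (-t * f l (l + 1)) * h2)
       | (linear_combination (t * f l (l + 1)) * h2))

/-- the operators commute with homomorphisms of `ℚ`-algebras -/
theorem T_map {S : Type*} [CommRing S] [Algebra ℚ S] (φ : R →ₐ[ℚ] S) (k : ℕ)
    (f : ℕ → ℕ → R) (i j : ℕ) :
    φ (T t k f i j) = T (φ t) k (fun a b => φ (f a b)) i j := by
  simp only [T]
  split_ifs <;> simp only [map_add, map_sub, map_mul, map_smul]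

theorem Tw_map {S : Type*} [CommRing S] [Algebra ℚ S] (φ : R →ₐ[ℚ] S) (w : List ℕ)
    (f : ℕ → ℕ → R) (i j : ℕ) :
    φ (Tw t w f i j) = Tw (φ t) w (fun a b => φ (f a b)) i j := by
  induction w generalizing i j with
  | nil => rfl
  | cons k w ih =>
    have h1 : Tw t (k :: w) f = T t k (Tw t w f) := rfl
    have h2 : Tw (φ t) (k :: w) (fun a b => φ (f a b)) =
        T (φ t) k (Tw (φ t) w (fun a b => φ (f a b))) := rfl
    rw [h1, h2, T_map]
    congr 1
    funext a b
    exact ih a b

end

section

variable {K : Type*} [Field K] [CharZero K] {t : K}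

omit [CharZero K] in
theorem Tinv_kk {i j k : ℕ} (f : ℕ → ℕ → K) (hi : i = k) (hj : j = k + 1) :
    Tinv t k f i j = t⁻¹ * f k (k + 1) := by
  subst hi; subst hj
  simp [Tinv]

omit [CharZero K] in
theorem Tinv_jk {i j k : ℕ} (f : ℕ → ℕ → K) (hi : i < k) (hj : j = k) :
    Tinv t k f i j = f i (k + 1) + f k (k + 1) := by
  subst hj
  rw [Tinv, if_neg (by omega), if_neg (by omega), if_pos rfl]

omit [CharZero K] in
theorem Tinv_jk1 {i j k : ℕ} (f : ℕ → ℕ → K) (hi : i < k) (hj : j = k + 1) :
    Tinv t k f i j = 2 * f i k - f i (k + 1) - f k (k + 1) := by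
  subst hj
  rw [Tinv, if_neg (by omega), if_neg (by omega), if_neg (by omega), if_pos rfl]

omit [CharZero K] in
theorem Tinv_ik {i j k : ℕ} (f : ℕ → ℕ → K) (hi : i = k) (hj : k + 1 < j) :
    Tinv t k f i j = 2 * f (k + 1) j - f k j - f k (k + 1) := by
  subst hi
  rw [Tinv, if_neg (by omega), if_neg (by omega), if_neg (by omega), if_neg (by omega),
    if_pos rfl]

omit [CharZero K] in
theorem Tinv_ik1 {i j k : ℕ} (f : ℕ → ℕ → K) (hi : i = k + 1) (hj : k + 1 < j) :
    Tinv t k f i j = f k j + f k (k + 1) := by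
  subst hi
  rw [Tinv, if_neg (by omega), if_neg (by omega), if_neg (by omega), if_neg (by omega),
    if_neg (by omega), if_pos rfl]

omit [CharZero K] in
theorem Tinv_mid {i j k : ℕ} (f : ℕ → ℕ → K) (hi : i < k) (hj : k + 1 < j) :
    Tinv t k f i j = f i j - f k (k + 1) := by
  rw [Tinv, if_neg (by omega), if_neg (by omega), if_neg (by omega), if_neg (by omega),
    if_neg (by omega), if_neg (by omega), if_pos ⟨hi, hj⟩]

omit [CharZero K] in
theorem Tinv_diag {i j k : ℕ} (f : ℕ → ℕ → K) (h : j ≤ i) : Tinv t k f i j = f i j := by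
  rw [Tinv, if_pos h]

omit [CharZero K] in
theorem Tinv_left {i j k : ℕ} (f : ℕ → ℕ → K) (h : j < k) : Tinv t k f i j = f i j := by
  rw [Tinv]
  split_ifs <;> first | rfl | omega

omit [CharZero K] in
theorem Tinv_right {i j k : ℕ} (f : ℕ → ℕ → K) (h : k + 1 < i) : Tinv t k f i j = f i j := by
  rw [Tinv]
  split_ifs <;> first | rfl | omega

theorem T_Tinv (ht : t ≠ 0) (k : ℕ) (f : ℕ → ℕ → K) : T t k (Tinv t k f) = f := by
  funext i j
  have h2 := two_half (R := K)
  generalize hc : algebraMap ℚ K (1 / 2) = c at h2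
  have h1 : t * t⁻¹ = 1 := mul_inv_cancel₀ ht
  by_cases hij : j ≤ i
  · simp (disch := omega) only [T_diag, Tinv_diag]
  have hi : i < k ∨ k = i ∨ i = k + 1 ∨ k + 1 < i := by omega
  have hj : j < k ∨ k = j ∨ j = k + 1 ∨ k + 1 < j := by omega
  rcases hi with hi | hi | hi | hi <;> rcases hj with hj | hj | hj | hj <;>
    first
    | omega
    | (try subst hi
       try subst hj
       simp (disch := omega) only [T_kk, T_jk, T_jk1, T_ik, T_ik1, T_mid, T_left, T_right,
         Tinv_kk, Tinv_jk, Tinv_jk1, Tinv_ik, Tinv_ik1, Tinv_mid, Tinv_left, Tinv_right, hc]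
       try first
       | (linear_combination (f i k) * h2)
       | (linear_combination (f (k + 1) j) * h2)
       | (linear_combination (-f k (k + 1)) * h1)
       | (linear_combination (f k (k + 1)) * h1))

theorem Tinv_T (ht : t ≠ 0) (k : ℕ) (f : ℕ → ℕ → K) : Tinv t k (T t k f) = f := by
  funext i j
  have h2 := two_half (R := K)
  generalize hc : algebraMap ℚ K (1 / 2) = c at h2
  have h1 : t * t⁻¹ = 1 := mul_inv_cancel₀ ht
  by_cases hij : j ≤ i
  · simp (disch := omega) only [T_diag, Tinv_diag]
  have hi : i < k ∨ k = i ∨ i = k + 1 ∨ k + 1 < i := by omega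
  have hj : j < k ∨ k = j ∨ j = k + 1 ∨ k + 1 < j := by omega
  rcases hi with hi | hi | hi | hi <;> rcases hj with hj | hj | hj | hj <;>
    first
    | omega
    | (try subst hi
       try subst hj
       simp (disch := omega) only [T_kk, T_jk, T_jk1, T_ik, T_ik1, T_mid, T_left, T_right,
         Tinv_kk, Tinv_jk, Tinv_jk1, Tinv_ik, Tinv_ik1, Tinv_mid, Tinv_left, Tinv_right, hc]
       try first
       | ring1
       | (linear_combination (f i k + f i (k + 1)) * h2)
       | (linear_combination (f k j + f (k + 1) j) * h2)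
       | (linear_combination (f k (k + 1)) * h1))

end

end Pool.Agent.Helper64.BI
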