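import Pool.Agent.Helper64.BI.Rel

/-!
BI. The Lawrence-Krammer representation of `B_∞` on the functions `ℕ → ℕ → K` (`q = 1/2`).
-/

set_option autoImplicit false

namespace Pool.Agent.Helper64.BI

variable {K : Type*} [Field K] [CharZero K]

/-- the operator of `σ_k` as a linear automorphism -/
def Tequiv (t : K) (ht : t ≠ 0) (k : ℕ) : (ℕ → ℕ → K) ≃ₗ[K] (ℕ → ℕ → K) where
  toFun := T t k
  map_add' := T_add t k
  map_smul' := T_smul t k
  invFun := Tinv t k
  left_inv := Tinv_T ht k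
  right_inv := T_Tinv ht k

theorem Tequiv_rel (t : K) (ht : t ≠ 0) (r : FreeGroup ℕ) (hr : r ∈ rels) :
    FreeGroup.lift (Tequiv t ht) r = 1 := by
  rcases hr with ⟨i, rfl⟩ | ⟨i, j, hij, rfl⟩
  · rw [map_mul, map_inv, mul_inv_eq_one]
    simp only [map_mul, FreeGroup.lift_apply_of]
    ext f : 1
    exact T_braid t i f
  · rw [map_mul, map_inv, mul_inv_eq_one]
    simp only [map_mul, FreeGroup.lift_apply_of]
    ext f : 1
    exact T_comm t hij f

/-- the representation: `rho t ht (σ k) = T t k` -/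
def rho (t : K) (ht : t ≠ 0) : BInf →* ((ℕ → ℕ → K) ≃ₗ[K] (ℕ → ℕ → K)) :=
  PresentedGroup.toGroup (Tequiv_rel t ht)

theorem rho_σ (t : K) (ht : t ≠ 0) (k : ℕ) (f : ℕ → ℕ → K) :
    rho t ht (σ k) f = T t k f := by
  have : rho t ht (σ k) = Tequiv t ht k := PresentedGroup.toGroup.of (Tequiv_rel t ht)
  rw [this]
  rfl

theorem rho_σ_inv (t : K) (ht : t ≠ 0) (k : ℕ) (f : ℕ → ℕ → K) :
    rho t ht (σ k)⁻¹ f = Tinv t k f := by
  have : rho t ht (σ k) = Tequiv t ht k := PresentedGroup.toGroup.of (Tequiv_rel t ht)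
  rw [map_inv, this]
  rfl

theorem rho_mul (t : K) (ht : t ≠ 0) (g h : BInf) (f : ℕ → ℕ → K) :
    rho t ht (g * h) f = rho t ht g (rho t ht h f) := by
  rw [map_mul]
  rfl

theorem rho_word (t : K) (ht : t ≠ 0) (w : List ℕ) (f : ℕ → ℕ → K) :
    rho t ht (w.map σ).prod f = Tw t w f := by
  induction w with
  | nil => simp [Tw]
  | cons k w ih =>
    rw [List.map_cons, List.prod_cons, rho_mul, ih, rho_σ]
    rfl

end Pool.Agent.Helper64.BI
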