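import Pool.Agent.Helper64.BI.Defs

/-!
BI-3. Simple braids (Matsumoto's theorem for the symmetric group), `IsR n I y`: `y` is the simple braid with
inversion set `I`.

Proofs. `IsR.inv`: induction; let `J` be closed and coclosed, `(k, k + 1) ∉ J`, `I = up k J`.
Coclosed: `(a, c) ∈ I`, `a < b < c`: then `(a, c) ≠ (k, k + 1)`, so `(a, c) = sw k (a', c')` with `(a', c') ∈ J`; `b' = s_k b`. If
`a' < b' < c'` use `J`; otherwise `(a, b) = (k, k + 1)` or `(b, c) = (k, k + 1)`, which is in `I`. Closed: similar (if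
`(a, b) = (k, k + 1)` then `(k, c) ∈ J`, and coclosedness of `J` with `(k, k + 1) ∉ J` gives `(k + 1, c) ∈ J`, so
`(k, c) = sw k (k + 1, c) ∈ I`).
`IsR.last` (strong induction on the number of elements of `I`; every descent can be the last letter): let
`l` be the last letter, `I = up l J`, `y = y₁ σ_l`, `(k, k + 1) ∈ I`. If `k = l` done. If `|k - l| ≥ 2`: `(k, k + 1) ∈ J`; induction
`J = up k K`, `y₁ = y₂ σ_k`; then `(l, l + 1) ∉ K`, `IsR (up l K) (y₂ σ_l)`, `(k, k + 1) ∉ up l K`,
`up k (up l K) = up l (up k K)`. If `l = k + 1`: `(k, k + 2) ∈ J`, `(k + 1, k + 2) ∉ J`, so `(k, k + 1) ∈ J` by coclosedness;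
`J = up k K`, `y₁ = y₂ σ_k`, `(k, k + 1) ∉ K`, `(k + 1, k + 2) ∈ K`, `(k, k + 2) ∉ K`; `K = up (k + 1) M`, `y₂ = y₃ σ_{k+1}`,
`(k, k + 1), (k + 1, k + 2), (k, k + 2) ∉ M`. Now `y = y₃ σ_{k+1} σ_k σ_{k+1} = y₃ σ_k σ_{k+1} σ_k`, and `up k (up (k+1) (up k M)) =
up (k+1) (up k (up (k+1) M))` with the side conditions: take `up (k+1) (up k M)` and `y₃ σ_k σ_{k+1}`. The case
`k = l + 1` is symmetric. `IsR.unique`: induction on the number of elements, with `IsR.last`.
`exists_isR`: strong induction; a nonempty `I` contains some `(k, k + 1)` (take `(i, j) ∈ I` with `j - i` minimal and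
use coclosedness), and `J = (I.erase (k, k + 1)).image (sw k)` is an inversion set with `up k J = I`, `(k, k + 1) ∉ J`.
`IsR.div`: induction on `IsR n J z` (the last letter `k` of `z` is a descent of `I`; `IsR.last`).
-/

set_option autoImplicit false

namespace Pool.Agent.Helper64.BI

variable {n : ℕ}

/-- the transposition of `k` and `k + 1` by cases -/
private theorem swap_cases (k i : ℕ) :
    (i = k ∧ Equiv.swap k (k + 1) i = k + 1) ∨ (i = k + 1 ∧ Equiv.swap k (k + 1) i = k) ∨
      (i ≠ k ∧ i ≠ k + 1 ∧ Equiv.swap k (k + 1) i = i) := by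
  by_cases h1 : i = k
  · left; subst h1; simp
  · by_cases h2 : i = k + 1
    · right; left; subst h2; simp
    · right; right; exact ⟨h1, h2, Equiv.swap_apply_of_ne_of_ne h1 h2⟩

private theorem sw_sw (k : ℕ) (p : ℕ × ℕ) : sw k (sw k p) = p := by
  simp [sw]

private theorem mem_up {k : ℕ} {J : Finset (ℕ × ℕ)} {p : ℕ × ℕ} :
    p ∈ up k J ↔ p = (k, k + 1) ∨ sw k p ∈ J := by
  simp only [up, Finset.mem_insert, Finset.mem_image]
  constructor
  · rintro (h | ⟨q, hq, rfl⟩)
    · exact Or.inl h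
    · right; rwa [sw_sw]
  · rintro (h | h)
    · exact Or.inl h
    · exact Or.inr ⟨_, h, sw_sw k p⟩

private theorem sw_mem_up {k : ℕ} {J : Finset (ℕ × ℕ)} (hJ : Inv n J) {p : ℕ × ℕ} :
    p ∈ J ↔ sw k p ∈ up k J ∧ sw k p ≠ (k, k + 1) := by
  rw [mem_up, sw_sw]
  constructor
  · intro h
    refine ⟨Or.inr h, fun he => ?_⟩
    have h2 : p = sw k (k, k + 1) := by rw [← he, sw_sw]
    have h3 := (hJ.lt p h).1
    rw [h2] at h3
    simp [sw] at h3
  · rintro ⟨h | h, h'⟩
    · exact absurd h h'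
    · exact h

private theorem inv_up {k : ℕ} (hk : k < n) {J : Finset (ℕ × ℕ)} (hJ : Inv n J)
    (hkJ : (k, k + 1) ∉ J) : Inv n (up k J) := by
  refine ⟨?_, ?_, ?_⟩
  · rintro ⟨a, b⟩ hp
    rw [mem_up] at hp
    rcases hp with hp | hp
    · simp only [Prod.mk.injEq] at hp
      simp only
      omega
    · have h1 := hJ.lt _ hp
      simp only [sw] at h1 hp
      rcases swap_cases k a with ⟨h2, h3⟩ | ⟨h2, h3⟩ | ⟨h2, h2', h3⟩ <;>
      rcases swap_cases k b with ⟨h4, h5⟩ | ⟨h4, h5⟩ | ⟨h4, h4', h5⟩ <;>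
      rw [h3, h5] at h1 hp <;>
      simp only <;>
      first
        | omega
        | exact absurd hp hkJ
  · intro a b c hab hbc
    rw [mem_up] at hab hbc ⊢
    rcases hab with hab | hab
    · simp only [Prod.mk.injEq] at hab
      obtain ⟨rfl, rfl⟩ := hab
      rcases hbc with hbc | hbc
      · simp at hbc
      · simp only [sw, Equiv.swap_apply_left, Equiv.swap_apply_right] at hbc ⊢
        have h1 := hJ.lt _ hbc
        simp only at h1
        rcases swap_cases a c with ⟨h4, h5⟩ | ⟨h4, h5⟩ | ⟨h4, h4', h5⟩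
        · rw [h5] at hbc
          exact absurd hbc hkJ
        · rw [h5] at h1
          omega
        · rw [h5] at hbc h1 ⊢
          rcases hJ.coclosed a (a + 1) c (by omega) (by omega) hbc with h | h
          · exact absurd h hkJ
          · exact Or.inr h
    · rcases hbc with hbc | hbc
      · simp only [Prod.mk.injEq] at hbc
        obtain ⟨rfl, rfl⟩ := hbc
        simp only [sw, Equiv.swap_apply_left, Equiv.swap_apply_right] at hab ⊢
        have h1 := hJ.lt _ hab
        simp only at h1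
        rcases swap_cases b a with ⟨h4, h5⟩ | ⟨h4, h5⟩ | ⟨h4, h4', h5⟩
        · rw [h5] at h1
          omega
        · rw [h5] at hab
          exact absurd hab hkJ
        · rw [h5] at hab h1 ⊢
          rcases hJ.coclosed a b (b + 1) (by omega) (by omega) hab with h | h
          · exact Or.inr h
          · exact absurd h hkJ
      · exact Or.inr (hJ.closed _ _ _ hab hbc)
  · intro a b c hab hbc hac
    rw [mem_up] at hac
    rcases hac with hac | hac
    · simp only [Prod.mk.injEq] at hac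
      omega
    · simp only [sw] at hac
      by_cases h1 : a = k ∧ b = k + 1
      · left; rw [mem_up]; left; rw [h1.1, h1.2]
      by_cases h2 : b = k ∧ c = k + 1
      · right; rw [mem_up]; left; rw [h2.1, h2.2]
      have h3 : Equiv.swap k (k + 1) a < Equiv.swap k (k + 1) b := by
        rcases swap_cases k a with ⟨h2, h3⟩ | ⟨h2, h3⟩ | ⟨h2, h2', h3⟩ <;>
        rcases swap_cases k b with ⟨h4, h5⟩ | ⟨h4, h5⟩ | ⟨h4, h4', h5⟩ <;>
        rw [h3, h5] <;> omega
      have h4 : Equiv.swap k (k + 1) b < Equiv.swap k (k + 1) c := by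
        rcases swap_cases k b with ⟨h2, h3⟩ | ⟨h2, h3⟩ | ⟨h2, h2', h3⟩ <;>
        rcases swap_cases k c with ⟨h4, h5⟩ | ⟨h4, h5⟩ | ⟨h4, h4', h5⟩ <;>
        rw [h3, h5] <;> omega
      rcases hJ.coclosed _ _ _ h3 h4 hac with h | h
      · left; rw [mem_up]; right; exact h
      · right; rw [mem_up]; right; exact h

theorem IsR.inv {I : Finset (ℕ × ℕ)} {y : BInf} (h : IsR n I y) : Inv n I := by
  induction h with
  | nil => exact ⟨by simp, by simp, by simp⟩
  | snoc k hk hJ h ih => exact inv_up hk ih hJ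

theorem IsR.mem_P {I : Finset (ℕ × ℕ)} {y : BInf} (h : IsR n I y) : y ∈ P n := by
  induction h with
  | nil => exact (P n).one_mem
  | snoc k hk hJ h ih => exact (P n).mul_mem ih (σ_mem_P hk)

private theorem card_up {k : ℕ} {J : Finset (ℕ × ℕ)} (hJ : Inv n J) :
    (up k J).card = J.card + 1 := by
  rw [up, Finset.card_insert_of_notMem, Finset.card_image_of_injective]
  · intro p q h
    rw [← sw_sw k p, h, sw_sw]
  · intro h
    rw [Finset.mem_image] at h
    obtain ⟨q, hq, h⟩ := h
    have h2 : q = sw k (k, k + 1) := by rw [← h, sw_sw]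
    have h3 := (hJ.lt q hq).1
    rw [h2] at h3
    simp [sw] at h3

private theorem sw_far {k l : ℕ} (h : k + 2 ≤ l ∨ l + 2 ≤ k) : sw l (k, k + 1) = (k, k + 1) := by
  simp only [sw]
  rw [Equiv.swap_apply_of_ne_of_ne (by omega) (by omega),
    Equiv.swap_apply_of_ne_of_ne (by omega) (by omega)]

private theorem sw_comm {k l : ℕ} (h : k + 2 ≤ l ∨ l + 2 ≤ k) (p : ℕ × ℕ) :
    sw l (sw k p) = sw k (sw l p) := by
  have h1 : ∀ i : ℕ, Equiv.swap l (l + 1) (Equiv.swap k (k + 1) i) =
      Equiv.swap k (k + 1) (Equiv.swap l (l + 1) i) := by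
    intro i
    rcases swap_cases k i with ⟨h2, h3⟩ | ⟨h2, h3⟩ | ⟨h2, h2', h3⟩ <;>
    rcases swap_cases l i with ⟨h4, h5⟩ | ⟨h4, h5⟩ | ⟨h4, h4', h5⟩ <;>
    rw [h3, h5] <;>
    first
      | omega
      | exact h5.trans h3.symm
      | exact Equiv.swap_apply_of_ne_of_ne (by omega) (by omega)
      | exact (Equiv.swap_apply_of_ne_of_ne (by omega) (by omega)).symm
      | (rw [h3]; exact Equiv.swap_apply_of_ne_of_ne (by omega) (by omega))
  simp only [sw, h1]

private theorem up_comm {k l : ℕ} (h : k + 2 ≤ l ∨ l + 2 ≤ k) (K : Finset (ℕ × ℕ)) :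
    up k (up l K) = up l (up k K) := by
  ext p
  simp only [mem_up]
  have h1 : sw k p = (l, l + 1) ↔ p = (l, l + 1) := by
    constructor
    · intro h'
      rw [← sw_sw k p, h', sw_far h.symm]
    · rintro rfl
      exact sw_far h.symm
  have h2 : sw l p = (k, k + 1) ↔ p = (k, k + 1) := by
    constructor
    · intro h'
      rw [← sw_sw l p, h', sw_far h]
    · rintro rfl
      exact sw_far h
  rw [h1, h2, sw_comm h]
  tauto

private theorem sw_braid (k : ℕ) (p : ℕ × ℕ) :
    sw k (sw (k + 1) (sw k p)) = sw (k + 1) (sw k (sw (k + 1) p)) := by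
  have h1 : ∀ i : ℕ, Equiv.swap k (k + 1) (Equiv.swap (k + 1) (k + 1 + 1)
      (Equiv.swap k (k + 1) i)) = Equiv.swap (k + 1) (k + 1 + 1) (Equiv.swap k (k + 1)
        (Equiv.swap (k + 1) (k + 1 + 1) i)) := by
    intro i
    simp only [Equiv.swap_apply_def]
    split_ifs <;> omega
  simp only [sw, h1]

private theorem sw_1 (k : ℕ) : sw k (k, k + 1 + 1) = (k + 1, k + 1 + 1) := by
  simp only [sw, Equiv.swap_apply_def]
  refine Prod.ext ?_ ?_ <;> (simp; try omega)

private theorem sw_2 (k : ℕ) : sw k (k + 1, k + 1 + 1) = (k, k + 1 + 1) := by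
  rw [← sw_1, sw_sw]

private theorem sw_3 (k : ℕ) : sw (k + 1) (k, k + 1) = (k, k + 1 + 1) := by
  simp only [sw, Equiv.swap_apply_def]
  refine Prod.ext ?_ ?_ <;> (simp; try omega)

private theorem sw_4 (k : ℕ) : sw (k + 1) (k, k + 1 + 1) = (k, k + 1) := by
  rw [← sw_3, sw_sw]

private theorem sw_eq_iff (k : ℕ) (p q : ℕ × ℕ) : sw k p = q ↔ p = sw k q := by
  constructor
  · rintro rfl
    rw [sw_sw]
  · rintro rfl
    rw [sw_sw]

private theorem up_braid (k : ℕ) (M : Finset (ℕ × ℕ)) :
    up (k + 1) (up k (up (k + 1) M)) = up k (up (k + 1) (up k M)) := by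
  ext p
  simp only [mem_up, sw_eq_iff, sw_1, sw_2, sw_3, sw_4, sw_braid]
  tauto

private theorem mem_far {k l : ℕ} (h : k + 2 ≤ l ∨ l + 2 ≤ k) {K : Finset (ℕ × ℕ)} :
    (k, k + 1) ∈ up l K ↔ (k, k + 1) ∈ K := by
  rw [mem_up, sw_far h]
  constructor
  · rintro (h' | h')
    · simp only [Prod.mk.injEq] at h'
      omega
    · exact h'
  · exact Or.inr

private theorem mem_1 {k : ℕ} {K : Finset (ℕ × ℕ)} :
    (k, k + 1 + 1) ∈ up k K ↔ (k + 1, k + 1 + 1) ∈ K := by
  rw [mem_up, sw_1]
  constructor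
  · rintro (h' | h')
    · simp at h'
    · exact h'
  · exact Or.inr

private theorem mem_2 {k : ℕ} {K : Finset (ℕ × ℕ)} :
    (k + 1, k + 1 + 1) ∈ up k K ↔ (k, k + 1 + 1) ∈ K := by
  rw [mem_up, sw_2]
  constructor
  · rintro (h' | h')
    · simp at h'
    · exact h'
  · exact Or.inr

private theorem mem_3 {k : ℕ} {K : Finset (ℕ × ℕ)} :
    (k, k + 1) ∈ up (k + 1) K ↔ (k, k + 1 + 1) ∈ K := by
  rw [mem_up, sw_3]
  constructor
  · rintro (h' | h')
    · simp at h'
    · exact h'
  · exact Or.inr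

private theorem mem_4 {k : ℕ} {K : Finset (ℕ × ℕ)} :
    (k, k + 1 + 1) ∈ up (k + 1) K ↔ (k, k + 1) ∈ K := by
  rw [mem_up, sw_4]
  constructor
  · rintro (h' | h')
    · simp at h'
    · exact h'
  · exact Or.inr

private theorem last_aux (m : ℕ) : ∀ (I : Finset (ℕ × ℕ)) (y : BInf), I.card ≤ m → IsR n I y →
    ∀ k, (k, k + 1) ∈ I → ∃ (J : Finset (ℕ × ℕ)) (y₁ : BInf), (k, k + 1) ∉ J ∧ IsR n J y₁ ∧
      I = up k J ∧ y = y₁ * σ k := by
  induction m with
  | zero =>
    intro I y hc _ k hk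
    rw [Finset.card_eq_zero.1 (Nat.le_zero.1 hc)] at hk
    simp at hk
  | succ m IH =>
    intro I y hc h k hk
    have hkn : k + 1 ≤ n := (h.inv.lt _ hk).2
    cases h with
    | nil => simp at hk
    | @snoc J y₁ l hl hJ h' =>
      have hJc : J.card ≤ m := by
        rw [card_up h'.inv] at hc
        omega
      by_cases hkl : k = l
      · subst hkl
        exact ⟨J, y₁, hJ, h', rfl, rfl⟩
      by_cases hfar : k + 2 ≤ l ∨ l + 2 ≤ k
      · rw [mem_far hfar] at hk
        obtain ⟨K, y₂, hK, hR, rfl, rfl⟩ := IH J y₁ hJc h' k hk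
        rw [mem_far hfar.symm] at hJ
        refine ⟨up l K, y₂ * σ l, ?_, IsR.snoc l hl hJ hR, (up_comm hfar K).symm, ?_⟩
        · rw [mem_far hfar]; exact hK
        · rcases hfar with hf | hf
          · rw [mul_assoc, mul_assoc, σ_comm hf]
          · rw [mul_assoc, mul_assoc, σ_comm hf]
      · have h2 : l = k + 1 ∨ k = l + 1 := by omega
        rcases h2 with rfl | rfl
        · rw [mem_3] at hk
          have h3 : (k, k + 1) ∈ J := by
            rcases h'.inv.coclosed k (k + 1) (k + 1 + 1) (by omega) (by omega) hk with h | h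
            · exact h
            · exact absurd h hJ
          obtain ⟨K, y₂, hK, hR, rfl, rfl⟩ := IH J y₁ hJc h' k h3
          rw [mem_1] at hk
          rw [mem_2] at hJ
          have hKc : K.card ≤ m := by
            rw [card_up hR.inv] at hJc
            omega
          obtain ⟨M, y₃, hM, hR', rfl, rfl⟩ := IH K y₂ hKc hR (k + 1) hk
          rw [mem_4] at hJ
          rw [mem_3] at hK
          refine ⟨up (k + 1) (up k M), y₃ * σ k * σ (k + 1), ?_, ?_, up_braid k M, ?_⟩
          · rw [mem_3, mem_1]; exact hM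
          · refine IsR.snoc (k + 1) hl ?_ (IsR.snoc k (by omega) hJ hR')
            rw [mem_2]; exact hK
          · have := σ_braid k
            simp only [mul_assoc] at this ⊢
            rw [this]
        · rw [mem_2] at hk
          have h3 : (l + 1, l + 1 + 1) ∈ J := by
            rcases h'.inv.coclosed l (l + 1) (l + 1 + 1) (by omega) (by omega) hk with h | h
            · exact absurd h hJ
            · exact h
          obtain ⟨K, y₂, hK, hR, rfl, rfl⟩ := IH J y₁ hJc h' (l + 1) h3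
          rw [mem_4] at hk
          rw [mem_3] at hJ
          have hKc : K.card ≤ m := by
            rw [card_up hR.inv] at hJc
            omega
          obtain ⟨M, y₃, hM, hR', rfl, rfl⟩ := IH K y₂ hKc hR l hk
          rw [mem_1] at hJ
          rw [mem_2] at hK
          refine ⟨up l (up (l + 1) M), y₃ * σ (l + 1) * σ l, ?_, ?_, (up_braid l M).symm, ?_⟩
          · rw [mem_2, mem_4]; exact hM
          · refine IsR.snoc l hl ?_ (IsR.snoc (l + 1) (by omega) hJ hR')
            rw [mem_3]; exact hK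
          · have := σ_braid l
            simp only [mul_assoc] at this ⊢
            rw [this]

theorem IsR.last {I : Finset (ℕ × ℕ)} {y : BInf} (h : IsR n I y) {k : ℕ}
    (hk : (k, k + 1) ∈ I) : ∃ (J : Finset (ℕ × ℕ)) (y₁ : BInf), (k, k + 1) ∉ J ∧ IsR n J y₁ ∧
      I = up k J ∧ y = y₁ * σ k :=
  last_aux I.card I y le_rfl h k hk

theorem IsR.unique {I : Finset (ℕ × ℕ)} {y y' : BInf} (h : IsR n I y) (h' : IsR n I y') :
    y = y' := by
  induction h generalizing y' with
  | nil =>
    generalize hI : (∅ : Finset (ℕ × ℕ)) = I at h'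
    cases h' with
    | nil => rfl
    | @snoc J y₁ k hk hJ h =>
      have h1 : (k, k + 1) ∈ up k J := by rw [mem_up]; exact Or.inl rfl
      rw [← hI] at h1
      simp at h1
  | @snoc J y₁ k hk hJ h ih =>
    have h1 : (k, k + 1) ∈ up k J := by rw [mem_up]; exact Or.inl rfl
    obtain ⟨J', y₁', hJ', hR', he, rfl⟩ := h'.last h1
    have h2 : J = J' := by
      ext p
      rw [sw_mem_up h.inv (k := k), sw_mem_up hR'.inv (k := k), he]
    subst h2
    rw [ih hR']

private theorem exists_descent {I : Finset (ℕ × ℕ)} (hI : Inv n I) (hne : I.Nonempty) :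
    ∃ k, (k, k + 1) ∈ I := by
  obtain ⟨⟨i, j⟩, hp, hmin⟩ := Finset.exists_min_image I (fun p => p.2 - p.1) hne
  have h1 := (hI.lt _ hp).1
  simp only at h1 hmin
  by_cases h2 : j = i + 1
  · subst h2
    exact ⟨i, hp⟩
  · rcases hI.coclosed i (i + 1) j (by omega) (by omega) hp with h | h
    · exact ⟨i, h⟩
    · have := hmin _ h
      simp only at this
      omega

private theorem exists_aux (m : ℕ) : ∀ I : Finset (ℕ × ℕ), I.card ≤ m → Inv n I →
    ∃ y, IsR n I y := by
  induction m with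
  | zero =>
    intro I hc hI
    rw [Finset.card_eq_zero.1 (Nat.le_zero.1 hc)]
    exact ⟨1, IsR.nil⟩
  | succ m IH =>
    intro I hc hI
    rcases I.eq_empty_or_nonempty with rfl | hne
    · exact ⟨1, IsR.nil⟩
    obtain ⟨k, hk⟩ := exists_descent hI hne
    have hkn := (hI.lt _ hk).2
    simp only at hkn
    have hmem : ∀ p, p ∈ (I.erase (k, k + 1)).image (sw k) ↔ sw k p ∈ I ∧ sw k p ≠ (k, k + 1) := by
      intro p
      rw [Finset.mem_image]
      constructor
      · rintro ⟨q, hq, rfl⟩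
        rw [sw_sw]
        rw [Finset.mem_erase] at hq
        exact ⟨hq.2, hq.1⟩
      · rintro ⟨h1, h2⟩
        exact ⟨sw k p, Finset.mem_erase.2 ⟨h2, h1⟩, sw_sw k p⟩
    have hup : up k ((I.erase (k, k + 1)).image (sw k)) = I := by
      ext p
      rw [mem_up, hmem, sw_sw]
      constructor
      · rintro (rfl | h)
        · exact hk
        · exact h.1
      · intro h
        by_cases h1 : p = (k, k + 1)
        · exact Or.inl h1
        · exact Or.inr ⟨h, h1⟩
    have hnot : (k, k + 1) ∉ (I.erase (k, k + 1)).image (sw k) := by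
      rw [hmem]
      rintro ⟨h1, _⟩
      have h2 := (hI.lt _ h1).1
      simp [sw] at h2
    have hinv : Inv n ((I.erase (k, k + 1)).image (sw k)) := by
      refine ⟨?_, ?_, ?_⟩
      · rintro ⟨a, b⟩ hp
        rw [hmem] at hp
        obtain ⟨hp, hp'⟩ := hp
        have h1 := hI.lt _ hp
        simp only [sw] at h1 hp hp'
        rcases swap_cases k a with ⟨h2, h3⟩ | ⟨h2, h3⟩ | ⟨h2, h2', h3⟩ <;>
        rcases swap_cases k b with ⟨h4, h5⟩ | ⟨h4, h5⟩ | ⟨h4, h4', h5⟩ <;>
        rw [h3, h5] at h1 hp hp' <;>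
        simp only <;>
        first
          | omega
          | exact absurd rfl hp'
      · intro a b c hab hbc
        rw [hmem] at hab hbc ⊢
        have h1 := hI.closed _ _ _ hab.1 hbc.1
        refine ⟨h1, fun he => ?_⟩
        have h2 := (hI.lt _ hab.1).1
        have h3 := (hI.lt _ hbc.1).1
        simp only [sw, Prod.mk.injEq] at he h2 h3
        omega
      · intro a b c hab hbc hac
        rw [hmem] at hac
        obtain ⟨hac, hac'⟩ := hac
        simp only [sw] at hac hac'
        by_cases h1 : a = k ∧ b = k + 1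
        · obtain ⟨rfl, rfl⟩ := h1
          right
          rw [hmem]
          have h5 : Equiv.swap a (a + 1) c = c :=
            Equiv.swap_apply_of_ne_of_ne (by omega) (by omega)
          rw [h5, Equiv.swap_apply_left] at hac
          simp only [sw, Equiv.swap_apply_right, h5]
          refine ⟨hI.closed _ _ _ hk hac, ?_⟩
          simp only [ne_eq, Prod.mk.injEq]
          omega
        by_cases h2 : b = k ∧ c = k + 1
        · obtain ⟨rfl, rfl⟩ := h2
          left
          rw [hmem]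
          have h5 : Equiv.swap b (b + 1) a = a :=
            Equiv.swap_apply_of_ne_of_ne (by omega) (by omega)
          rw [h5, Equiv.swap_apply_right] at hac
          simp only [sw, Equiv.swap_apply_left, h5]
          refine ⟨hI.closed _ _ _ hac hk, ?_⟩
          simp only [ne_eq, Prod.mk.injEq]
          omega
        have h3 : Equiv.swap k (k + 1) a < Equiv.swap k (k + 1) b := by
          rcases swap_cases k a with ⟨h2, h3⟩ | ⟨h2, h3⟩ | ⟨h2, h2', h3⟩ <;>
          rcases swap_cases k b with ⟨h4, h5⟩ | ⟨h4, h5⟩ | ⟨h4, h4', h5⟩ <;>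
          rw [h3, h5] <;> omega
        have h4 : Equiv.swap k (k + 1) b < Equiv.swap k (k + 1) c := by
          rcases swap_cases k b with ⟨h2, h3⟩ | ⟨h2, h3⟩ | ⟨h2, h2', h3⟩ <;>
          rcases swap_cases k c with ⟨h4, h5⟩ | ⟨h4, h5⟩ | ⟨h4, h4', h5⟩ <;>
          rw [h3, h5] <;> omega
        have h6 : ∀ i j : ℕ, i < j → sw k (i, j) ≠ (k, k + 1) := by
          intro i j hij he
          have h7 : (i, j) = sw k (k, k + 1) := by rw [← he, sw_sw]
          simp only [sw, Equiv.swap_apply_left, Equiv.swap_apply_right, Prod.mk.injEq] at h7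
          omega
        rcases hI.coclosed _ _ _ h3 h4 hac with h | h
        · left; rw [hmem]; exact ⟨h, h6 _ _ hab⟩
        · right; rw [hmem]; exact ⟨h, h6 _ _ hbc⟩
    have hcard : ((I.erase (k, k + 1)).image (sw k)).card ≤ m := by
      have h1 := card_up (n := n) (k := k) hinv
      rw [hup] at h1
      omega
    obtain ⟨y, hy⟩ := IH _ hcard hinv
    refine ⟨y * σ k, ?_⟩
    have := IsR.snoc k (by omega) hnot hy
    rwa [hup] at this

theorem exists_isR {I : Finset (ℕ × ℕ)} (hI : Inv n I) : ∃ y, IsR n I y :=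
  exists_aux I.card I le_rfl hI

theorem IsR.div {I J : Finset (ℕ × ℕ)} {y z : BInf} (h : IsR n I y) (h' : IsR n J z)
    (hJI : J ⊆ I) : ∃ p ∈ P n, y = p * z := by
  induction h' generalizing I y with
  | nil => exact ⟨y, h.mem_P, by simp⟩
  | @snoc J₀ z₀ k hk hJ h' ih =>
    have h1 : (k, k + 1) ∈ up k J₀ := by rw [mem_up]; exact Or.inl rfl
    obtain ⟨I₀, y₁, hI₀, hR, rfl, rfl⟩ := h.last (hJI h1)
    have h2 : J₀ ⊆ I₀ := by
      intro p hp
      rw [sw_mem_up h'.inv (k := k)] at hp
      rw [sw_mem_up hR.inv (k := k)]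
      exact ⟨hJI hp.1, hp.2⟩
    obtain ⟨p, hp, rfl⟩ := ih hR h2
    exact ⟨p, hp, by rw [mul_assoc]⟩

end Pool.Agent.Helper64.BI
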