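import Pool.Agent.Helper64.BI.Simple
import Pool.Agent.Helper64.BI.Garside

/-!
BI-5. The combinatorial core: the greatest inversion set inside `Ac n w` is the inversion set of a simple
right divisor of the braid of `w`.

Proofs. `star_trans`: `A ⊆ allp n` transitive implies `star n k A` transitive: cases for `a < b < c` and the
positions of `k, k + 1` among them (`a < k`, `c > k + 1` where it makes sense):
`c = k`: both `(b, k), (b, k+1) ∈ A`; `c = k+1`, `b < k`: `(a, b), (b, k) ∈ A`; `b = k`, `c = k+1`: `(a, k) ∈ A`; `b = k`,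
`c > k+1`: `(a, k+1), (k+1, c) ∈ A`; `b = k+1`, `a < k`: `(a, k), (k, c) ∈ A`; `a = k`, `b = k+1`: `(k+1, c) ∈ A`; `a = k`,
`b > k+1`: `(k+1, b), (b, c) ∈ A`; `a = k+1`: `(k, b), (k+1, b), (b, c) ∈ A`.
`exists_pro`: `A ⊆ allp n` transitive. `I = {(i, j) ∈ A | ¬ TransGen r i j}` with `r a b := a < b ∧ b ≤ n ∧ (a, b) ∉ A`.
Coclosed: clear. Closed: if `(i, j), (j, k) ∈ I` and `TransGen r i k`, then a path from `i` to `k` passes through `j`
or jumps over `j` by `(c, c') ∉ A`, `c < j < c'`; then `(c, j) ∉ A` or `(j, c') ∉ A` as `A` is transitive: a path from `i`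
to `j` or from `j` to `k`, contradiction. Greatest: the complement (in `allp n`) of a coclosed `J ⊆ A` is
transitive and contains the complement of `A`, so it contains the transitive closure.
`main_star`: induction on `w` from the right. `w = []`: `I = ∅`, `y = p = 1`. Step `w σ_k`: let `I, y, p` be the data of `w`,
`A = Ac n w`, `A' = star n k A`, `I'` the greatest inversion set in `A'` (`exists_pro`, `star_trans`). `(k, k + 1) ∈ I'` (the
singleton `{(k, k + 1)}` is an inversion set). `IsR n I' y'` exists; `IsR.last`: `I' = up k J`, `y' = z σ_k`, `IsR n J z`.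
`J ⊆ A` (elements of `J` are `sw k` of elements `≠ (k, k + 1)` of `A'`: look at the definition of `star`), so `J ⊆ I`, and
by `IsR.div` `y = p₁ z`. So the braid of `w σ_k` is `p y σ_k = p p₁ z σ_k = (p p₁) y'`.
`isR_Δ`: with `Im n m = (allp n).filter (fun p => p.2 ≠ m)`: `Im n n = allp (n - 1)`, `Im n 0 = allp n`,
`up m (Im n (m + 1)) = Im n m`; so appending `σ_{n-1}, ..., σ_0` leads from `allp (n-1)` to `allp n` (monotonicity of
`IsR` in `n`). `Ac_Δ`: the same with `star n m (Im n (m + 1)) = Im n m` (first `star n` and `star (n-1)` agree on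
`Δ_{n-1}`: prove for all `N ≥ n` that the word of `Δ n` has `Ac N = allp n ∪ ...`? NO: for `N > n` the pairs `(i, j)` with
`j > n` are never added, so `Ac N w = allp n` for the word `w` of `Δ n`; prove it in this form, `Im` with `allp n`).
-/

set_option autoImplicit false

namespace Pool.Agent.Helper64.BI

theorem mem_star {n k : ℕ} {A : Finset (ℕ × ℕ)} {a b : ℕ} :
    (a, b) ∈ star n k A ↔ (a < b ∧ b ≤ n) ∧
      (if a = k ∧ b = k + 1 then True
      else if b = k then (a, k) ∈ A ∧ (a, k + 1) ∈ A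
      else if b = k + 1 then (a, k) ∈ A
      else if a = k then (k + 1, b) ∈ A
      else if a = k + 1 then (k, b) ∈ A ∧ (k + 1, b) ∈ A
      else (a, b) ∈ A) := by
  simp only [star, Finset.mem_filter, mem_allp]

theorem star_trans {n k : ℕ} (hk : k < n) {A : Finset (ℕ × ℕ)} (hA : A ⊆ allp n)
    (h : ∀ a b c, (a, b) ∈ A → (b, c) ∈ A → (a, c) ∈ A) (a b c : ℕ)
    (h1 : (a, b) ∈ star n k A) (h2 : (b, c) ∈ star n k A) : (a, c) ∈ star n k A := by
  rw [mem_star] at h1 h2 ⊢
  obtain ⟨⟨hab, hb⟩, h1⟩ := h1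
  obtain ⟨⟨hbc, hc⟩, h2⟩ := h2
  refine ⟨⟨hab.trans hbc, hc⟩, ?_⟩
  grind

private theorem exists_pro_aux {n : ℕ} {A : Finset (ℕ × ℕ)}
    (h : ∀ a b c, (a, b) ∈ A → (b, c) ∈ A → (a, c) ∈ A) {r : ℕ → ℕ → Prop}
    (hr : ∀ a b, r a b ↔ a < b ∧ b ≤ n ∧ (a, b) ∉ A) {a c : ℕ}
    (hac : Relation.TransGen r a c) :
    ∀ b, a < b → b < c → Relation.TransGen r a b ∨ Relation.TransGen r b c := by
  have single : ∀ a b c, r a c → a < b → b < c → r a b ∨ r b c := by
    intro a b c hac hab hbc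
    obtain ⟨h1, h2, h3⟩ := (hr a c).1 hac
    by_cases h4 : (a, b) ∈ A
    · right
      rw [hr]
      exact ⟨hbc, h2, fun h5 => h3 (h a b c h4 h5)⟩
    · left
      rw [hr]
      exact ⟨hab, hbc.le.trans h2, h4⟩
  induction hac with
  | single hac =>
    intro b hab hbc
    rcases single _ _ _ hac hab hbc with h1 | h1
    · exact Or.inl (Relation.TransGen.single h1)
    · exact Or.inr (Relation.TransGen.single h1)
  | tail hac hcd ih =>
    rename_i c' c
    intro b hab hbc
    rcases lt_trichotomy b c' with hb | hb | hb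
    · rcases ih b hab hb with h1 | h1
      · exact Or.inl h1
      · exact Or.inr (Relation.TransGen.tail h1 hcd)
    · subst hb
      exact Or.inl hac
    · rcases single _ _ _ hcd hb hbc with h1 | h1
      · exact Or.inl (Relation.TransGen.tail hac h1)
      · exact Or.inr (Relation.TransGen.single h1)

theorem exists_pro {n : ℕ} {A : Finset (ℕ × ℕ)} (hA : A ⊆ allp n)
    (h : ∀ a b c, (a, b) ∈ A → (b, c) ∈ A → (a, c) ∈ A) :
    ∃ I, Inv n I ∧ I ⊆ A ∧ ∀ J, Inv n J → J ⊆ A → J ⊆ I := by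
  classical
  set r : ℕ → ℕ → Prop := fun a b => a < b ∧ b ≤ n ∧ (a, b) ∉ A with hrdef
  have hr : ∀ a b, r a b ↔ a < b ∧ b ≤ n ∧ (a, b) ∉ A := fun a b => Iff.rfl
  have hlt : ∀ a b, Relation.TransGen r a b → a < b := by
    intro a b hab
    induction hab with
    | single h1 => exact h1.1
    | tail _ h1 ih => exact ih.trans h1.1
  have hmem : ∀ a b, (a, b) ∈ A.filter (fun p => ¬ Relation.TransGen r p.1 p.2) ↔
      (a, b) ∈ A ∧ ¬ Relation.TransGen r a b := by
    intro a b
    rw [Finset.mem_filter]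
  refine ⟨A.filter (fun p => ¬ Relation.TransGen r p.1 p.2), ⟨?_, ?_, ?_⟩,
    Finset.filter_subset _ _, ?_⟩
  · intro p hp
    exact mem_allp.1 (hA (Finset.mem_filter.1 hp).1)
  · intro a b c hab hbc
    rw [hmem] at hab hbc ⊢
    refine ⟨h a b c hab.1 hbc.1, fun hac => ?_⟩
    rcases exists_pro_aux h hr hac b (mem_allp.1 (hA hab.1)).1 (mem_allp.1 (hA hbc.1)).1 with h1 | h1
    · exact hab.2 h1
    · exact hbc.2 h1
  · intro a b c hab hbc hac
    rw [hmem] at hac
    rw [hmem, hmem]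
    by_contra hcon
    push Not at hcon
    obtain ⟨h1, h2⟩ := hcon
    have hcn : c ≤ n := (mem_allp.1 (hA hac.1)).2
    have h3 : Relation.TransGen r a b := by
      by_cases h4 : (a, b) ∈ A
      · exact h1 h4
      · exact Relation.TransGen.single ⟨hab, hbc.le.trans hcn, h4⟩
    have h5 : Relation.TransGen r b c := by
      by_cases h4 : (b, c) ∈ A
      · exact h2 h4
      · exact Relation.TransGen.single ⟨hbc, hcn, h4⟩
    exact hac.2 (h3.trans h5)
  · intro J hJ hJA p hp
    obtain ⟨a, b⟩ := p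
    rw [hmem]
    refine ⟨hJA hp, fun hab => ?_⟩
    have key : ∀ c, Relation.TransGen r a c → (a, c) ∉ J := by
      intro c hac
      induction hac with
      | single h1 => exact fun h2 => h1.2.2 (hJA h2)
      | tail h1 h2 ih =>
        intro h3
        rcases hJ.coclosed _ _ _ (hlt _ _ h1) h2.1 h3 with h4 | h4
        · exact ih h4
        · exact h2.2.2 (hJA h4)
    exact key b hab hp

theorem Ac_subset (n : ℕ) (w : List ℕ) : Ac n w ⊆ allp n := by
  induction w using List.reverseRecOn with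
  | nil => simp [Ac]
  | append_singleton w k _ =>
    rw [Ac, List.foldl_append]
    simp only [List.foldl_cons, List.foldl_nil]
    exact Finset.filter_subset _ _

theorem Ac_append (n : ℕ) (w : List ℕ) (k : ℕ) : Ac n (w ++ [k]) = star n k (Ac n w) := by
  simp [Ac, List.foldl_append]

theorem Ac_trans {n : ℕ} {w : List ℕ} (hw : ∀ k ∈ w, k < n) (a b c : ℕ) :
    (a, b) ∈ Ac n w → (b, c) ∈ Ac n w → (a, c) ∈ Ac n w := by
  induction w using List.reverseRecOn generalizing a b c with
  | nil => simp [Ac]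
  | append_singleton w k ih =>
    intro h1 h2
    rw [Ac_append] at h1 h2 ⊢
    exact star_trans (hw k (by simp)) (Ac_subset n w)
      (fun a b c => ih (fun l hl => hw l (by simp [hl])) a b c) a b c h1 h2

private theorem inv_singleton {n k : ℕ} (hk : k < n) : Inv n {(k, k + 1)} := by
  refine ⟨?_, ?_, ?_⟩
  · intro p hp
    rw [Finset.mem_singleton] at hp
    subst hp
    exact ⟨Nat.lt_succ_self k, hk⟩
  · intro a b c h1 h2
    simp only [Finset.mem_singleton, Prod.mk.injEq] at h1 h2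
    omega
  · intro a b c h1 h2 h3
    simp only [Finset.mem_singleton, Prod.mk.injEq] at h3
    omega

private theorem mem_of_sw {n k : ℕ} {A : Finset (ℕ × ℕ)} {a b : ℕ} (hab : a < b)
    (hne : (a, b) ≠ (k, k + 1)) (h : sw k (a, b) ∈ star n k A) : (a, b) ∈ A := by
  rw [sw, mem_star] at h
  obtain ⟨⟨h1, h2⟩, h3⟩ := h
  have hne' : ¬ (a = k ∧ b = k + 1) := fun hh => hne (by rw [hh.1, hh.2])
  simp only [Equiv.swap_apply_def] at h1 h2 h3
  grind

theorem main_star {n : ℕ} (w : List ℕ) (hw : ∀ k ∈ w, k < n) :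
    ∃ (I : Finset (ℕ × ℕ)) (y p : BInf), Inv n I ∧ I ⊆ Ac n w ∧
      (∀ J, Inv n J → J ⊆ Ac n w → J ⊆ I) ∧ IsR n I y ∧ p ∈ P n ∧ (w.map σ).prod = p * y := by
  induction w using List.reverseRecOn with
  | nil =>
    refine ⟨∅, 1, 1, ⟨by simp, by simp, by simp⟩, by simp, ?_, IsR.nil, Submonoid.one_mem _,
      by simp⟩
    intro J _ hJ
    simpa [Ac] using hJ
  | append_singleton w k ih =>
    have hw' : ∀ l ∈ w, l < n := fun l hl => hw l (by simp [hl])
    have hk : k < n := hw k (by simp)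
    obtain ⟨I, y, p, hI, hIA, hmax, hIy, hp, hprod⟩ := ih hw'
    rw [Ac_append]
    obtain ⟨I', hI', hI'A, hmax'⟩ := exists_pro (n := n) (A := star n k (Ac n w))
      (Finset.filter_subset _ _)
      (star_trans hk (Ac_subset n w) (Ac_trans hw'))
    have hkI : (k, k + 1) ∈ I' := by
      refine hmax' {(k, k + 1)} (inv_singleton hk) ?_ (Finset.mem_singleton_self _)
      rw [Finset.singleton_subset_iff, mem_star]
      exact ⟨⟨Nat.lt_succ_self k, hk⟩, by simp⟩
    obtain ⟨y', hy'⟩ := exists_isR hI'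
    obtain ⟨J, z, hkJ, hJz, hI'J, hy'z⟩ := hy'.last hkI
    have hJinv := hJz.inv
    have hJA : J ⊆ Ac n w := by
      intro q hq
      obtain ⟨a, b⟩ := q
      refine mem_of_sw (n := n) (k := k) (hJinv.lt _ hq).1 (fun hh => hkJ (hh ▸ hq)) (hI'A ?_)
      rw [hI'J, up]
      exact Finset.mem_insert_of_mem (Finset.mem_image_of_mem _ hq)
    obtain ⟨p₁, hp₁, hyz⟩ := hIy.div hJz (hmax J hJinv hJA)
    refine ⟨I', y', p * p₁, hI', hI'A, hmax', hy', (P n).mul_mem hp hp₁, ?_⟩
    rw [List.map_append, List.prod_append, hprod, hyz, hy'z]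
    simp [mul_assoc]

/-- the pairs `i < j ≤ n` with `j ≠ m` -/
private def Im (n m : ℕ) : Finset (ℕ × ℕ) := (allp n).filter fun p => p.2 ≠ m

private theorem mem_Im {n m : ℕ} {p : ℕ × ℕ} :
    p ∈ Im n m ↔ (p.1 < p.2 ∧ p.2 ≤ n) ∧ p.2 ≠ m := by
  rw [Im, Finset.mem_filter, mem_allp]

private theorem Im_top (n : ℕ) : Im (n + 1) (n + 1) = allp n := by
  ext p
  rw [mem_Im, mem_allp]
  omega

private theorem Im_zero (n : ℕ) : Im n 0 = allp n := by
  ext p
  rw [mem_Im, mem_allp]
  omega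

private theorem up_Im {n m : ℕ} (hm : m < n) : up m (Im n (m + 1)) = Im n m := by
  ext p
  obtain ⟨a, b⟩ := p
  rw [up, Finset.mem_insert, Finset.mem_image, mem_Im]
  constructor
  · rintro (h | ⟨q, hq, hqp⟩)
    · simp only [Prod.mk.injEq] at h
      omega
    · obtain ⟨c, d⟩ := q
      rw [mem_Im] at hq
      simp only [sw, Prod.mk.injEq, Equiv.swap_apply_def] at hqp
      simp only at hq ⊢
      grind
  · rintro ⟨⟨h1, h2⟩, h3⟩
    simp only at h1 h2 h3
    by_cases h4 : a = m ∧ b = m + 1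
    · left
      rw [h4.1, h4.2]
    · right
      refine ⟨sw m (a, b), ?_, ?_⟩
      · rw [mem_Im]
        simp only [sw, Equiv.swap_apply_def]
        grind
      · simp [sw]

private theorem IsR.mono {n N : ℕ} (h : n ≤ N) {I : Finset (ℕ × ℕ)} {y : BInf}
    (hI : IsR n I y) : IsR N I y := by
  induction hI with
  | nil => exact IsR.nil
  | snoc k hk hJ _ ih => exact IsR.snoc k (lt_of_lt_of_le hk h) hJ ih

private theorem isR_dw {n : ℕ} : ∀ (m : ℕ), m ≤ n → ∀ y : BInf, IsR n (Im n m) y →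
    IsR n (Im n 0) (y * dw m)
  | 0, _, y, h => by simpa [dw] using h
  | m + 1, hm, y, h => by
    have h1 : IsR n (Im n m) (y * σ m) := by
      rw [← up_Im (Nat.lt_of_succ_le hm)]
      refine IsR.snoc m hm ?_ h
      rw [mem_Im]
      simp
    have h2 := isR_dw m (by omega) (y * σ m) h1
    rw [dw, ← mul_assoc]
    exact h2

theorem isR_Δ (n : ℕ) : IsR n (allp n) (Δ n) := by
  induction n with
  | zero =>
    have h : allp 0 = ∅ := by decide
    rw [h, Δ]
    exact IsR.nil
  | succ n ih =>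
    rw [← Im_zero, Δ]
    refine isR_dw (n + 1) le_rfl (Δ n) ?_
    rw [Im_top]
    exact IsR.mono (Nat.le_succ n) ih

private theorem star_Im {N n m : ℕ} (hm : m < n) (hn : n ≤ N) :
    star N m (Im n (m + 1)) = Im n m := by
  ext p
  obtain ⟨a, b⟩ := p
  rw [mem_star, mem_Im]
  simp only [mem_Im]
  grind

/-- the word of `dw` -/
private def dwl : ℕ → List ℕ
  | 0 => []
  | n + 1 => n :: dwl n

/-- the word of `Δ` -/
private def wl : ℕ → List ℕ
  | 0 => []
  | n + 1 => wl n ++ dwl (n + 1)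

private theorem dwl_lt : ∀ n, ∀ k ∈ dwl n, k < n
  | 0, k, h => by simp [dwl] at h
  | n + 1, k, h => by
    rw [dwl, List.mem_cons] at h
    rcases h with h | h
    · omega
    · have := dwl_lt n k h
      omega

private theorem wl_lt : ∀ n, ∀ k ∈ wl n, k < n
  | 0, k, h => by simp [wl] at h
  | n + 1, k, h => by
    rw [wl, List.mem_append] at h
    rcases h with h | h
    · have := wl_lt n k h
      omega
    · exact dwl_lt _ k h

private theorem dwl_prod : ∀ n, ((dwl n).map σ).prod = dw n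
  | 0 => by simp [dwl, dw]
  | n + 1 => by rw [dwl, dw, List.map_cons, List.prod_cons, dwl_prod n]

private theorem wl_prod : ∀ n, ((wl n).map σ).prod = Δ n
  | 0 => by simp [wl, Δ]
  | n + 1 => by rw [wl, Δ, List.map_append, List.prod_append, wl_prod n, dwl_prod]

private theorem foldl_dwl {N n : ℕ} (hn : n ≤ N) : ∀ m, m ≤ n →
    (dwl m).foldl (fun A k => star N k A) (Im n m) = Im n 0
  | 0, _ => by simp [dwl]
  | m + 1, hm => by
    rw [dwl, List.foldl_cons, star_Im (Nat.lt_of_succ_le hm) hn]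
    exact foldl_dwl hn m (by omega)

private theorem Ac_wl {N : ℕ} : ∀ n, n ≤ N → Ac N (wl n) = allp n
  | 0, _ => by
    have h : allp 0 = ∅ := by decide
    rw [h]
    simp [Ac, wl]
  | n + 1, hn => by
    have ih := Ac_wl (N := N) n (by omega)
    rw [Ac] at ih
    rw [Ac, wl, List.foldl_append, ih, ← Im_top, foldl_dwl hn (n + 1) le_rfl, Im_zero]

/-- a word for the Garside element whose zero set is everything -/
theorem exists_word_Δ (n : ℕ) : ∃ w : List ℕ, (∀ k ∈ w, k < n) ∧ (w.map σ).prod = Δ n ∧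
    Ac n w = allp n :=
  ⟨wl n, wl_lt n, wl_prod n, Ac_wl n le_rfl⟩

theorem div_of_Ac {n : ℕ} {w : List ℕ} (hw : ∀ k ∈ w, k < n) (h : Ac n w = allp n) :
    ∃ z ∈ P n, (w.map σ).prod = z * Δ n := by
  obtain ⟨I, y, p, hI, hIA, hmax, hIy, hp, hprod⟩ := main_star w hw
  have hall := isR_Δ n
  have hsub : allp n ⊆ I := hmax _ hall.inv (by rw [h])
  have hIeq : I = allp n := Finset.Subset.antisymm (by rw [← h]; exact hIA) hsub
  subst hIeq
  refine ⟨p, hp, ?_⟩
  rw [hprod, hIy.unique hall]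

/-- every generator divides `Δ` on the right -/
theorem Δ_div {n k : ℕ} (hk : k < n) : ∃ z ∈ P n, Δ n = z * σ k := by
  have hall := isR_Δ n
  obtain ⟨J, z, _, hJz, _, hz⟩ := hall.last (k := k) (mem_allp.2 ⟨Nat.lt_succ_self k, hk⟩)
  exact ⟨z, hJz.mem_P, hz⟩

end Pool.Agent.Helper64.BI
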